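import Mathlib

set_option autoImplicit false

open Finset Filter Topology

namespace Pool.Agent.R645.NE

/-! Absorbing finite Markov chains: collected reward within `t` steps. -/

section chain

variable {V : Type} [Fintype V] (P : V → V → ℝ) (T : V → Bool) (r : V → ℝ)

/-- Expected reward collected within `t` steps. -/
noncomputable def hv : ℕ → V → ℝ
  | 0, v => if T v then r v else 0
  | t + 1, v => if T v then r v else ∑ u, P v u * hv t u

/-- Expected reward collected eventually. -/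
noncomputable def H (v : V) : ℝ := ⨆ t, hv P T r t v

variable {P T r}

theorem hv_term {v : V} (h : T v = true) (t : ℕ) : hv P T r t v = r v := by
  cases t <;> simp [hv, h]

theorem hv_succ {v : V} (h : T v = false) (t : ℕ) :
    hv P T r (t + 1) v = ∑ u, P v u * hv P T r t u := by
  simp [hv, h]

theorem hv_zero {v : V} (h : T v = false) : hv P T r 0 v = 0 := by
  simp [hv, h]

/-- The standing assumptions on a chain. -/
structure IsChain (P : V → V → ℝ) (T : V → Bool) : Prop where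
  nonneg : ∀ v u, 0 ≤ P v u
  sum : ∀ v, T v = false → ∑ u, P v u = 1

theorem hv_nonneg (hP : ∀ v u, 0 ≤ P v u) (hr : ∀ v, 0 ≤ r v) (t : ℕ) (v : V) :
    0 ≤ hv P T r t v := by
  induction t generalizing v with
  | zero =>
    cases h : T v
    · rw [hv_zero h]
    · rw [hv_term h]; exact hr v
  | succ t ih =>
    cases h : T v
    · rw [hv_succ h]
      exact sum_nonneg fun u _ => mul_nonneg (hP v u) (ih u)
    · rw [hv_term h]; exact hr v

theorem hv_mono_succ (hP : ∀ v u, 0 ≤ P v u) (hr : ∀ v, 0 ≤ r v) (t : ℕ) (v : V) :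
    hv P T r t v ≤ hv P T r (t + 1) v := by
  induction t generalizing v with
  | zero =>
    cases h : T v
    · rw [hv_zero h]; exact hv_nonneg hP hr _ _
    · rw [hv_term h, hv_term h]
  | succ t ih =>
    cases h : T v
    · rw [hv_succ h, hv_succ h]
      exact sum_le_sum fun u _ => mul_le_mul_of_nonneg_left (ih u) (hP v u)
    · rw [hv_term h, hv_term h]

theorem hv_mono (hP : ∀ v u, 0 ≤ P v u) (hr : ∀ v, 0 ≤ r v) (v : V) :
    Monotone fun t => hv P T r t v :=
  monotone_nat_of_le_succ fun t => hv_mono_succ hP hr t v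

/-- Superharmonic functions on a closed set bound the reward. -/
theorem hv_le (hP : ∀ v u, 0 ≤ P v u) (C : Set V) (g : V → ℝ)
    (h0 : ∀ v ∈ C, T v = false → 0 ≤ g v) (h1 : ∀ v ∈ C, T v = true → r v ≤ g v)
    (h2 : ∀ v ∈ C, T v = false → ∀ u, P v u ≠ 0 → u ∈ C)
    (h3 : ∀ v ∈ C, T v = false → ∑ u, P v u * g u ≤ g v) (t : ℕ) :
    ∀ v ∈ C, hv P T r t v ≤ g v := by
  induction t with
  | zero =>
    intro v hv'
    cases h : T v
    · rw [hv_zero h]; exact h0 v hv' h
    · rw [hv_term h]; exact h1 v hv' h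
  | succ t ih =>
    intro v hv'
    cases h : T v
    · rw [hv_succ h]
      refine le_trans (sum_le_sum fun u _ => ?_) (h3 v hv' h)
      by_cases hu : P v u = 0
      · rw [hu]; simp
      · exact mul_le_mul_of_nonneg_left (ih u (h2 v hv' h u hu)) (hP v u)
    · rw [hv_term h]; exact h1 v hv' h

theorem hv_le_one (hC : IsChain P T) (hr : ∀ v, r v ≤ 1) (t : ℕ) (v : V) :
    hv P T r t v ≤ 1 :=
  hv_le hC.nonneg Set.univ (fun _ => 1) (fun _ _ _ => zero_le_one) (fun v _ _ => hr v)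
    (fun _ _ _ _ _ => Set.mem_univ _) (fun v _ h => by simp [hC.sum v h]) t v (Set.mem_univ v)

theorem H_bdd (hC : IsChain P T) (hr : ∀ v, r v ≤ 1) (v : V) :
    BddAbove (Set.range fun t => hv P T r t v) :=
  ⟨1, by rintro _ ⟨t, rfl⟩; exact hv_le_one hC hr t v⟩

theorem H_tendsto (hC : IsChain P T) (h0 : ∀ v, 0 ≤ r v) (hr : ∀ v, r v ≤ 1) (v : V) :
    Tendsto (fun t => hv P T r t v) atTop (𝓝 (H P T r v)) :=
  tendsto_atTop_ciSup (hv_mono hC.nonneg h0 v) (H_bdd hC hr v)

theorem H_term {v : V} (h : T v = true) : H P T r v = r v := by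
  unfold H
  simp [hv_term h]

theorem H_harm (hC : IsChain P T) (h0 : ∀ v, 0 ≤ r v) (hr : ∀ v, r v ≤ 1) {v : V}
    (h : T v = false) : H P T r v = ∑ u, P v u * H P T r u := by
  have h1 := (H_tendsto hC h0 hr v).comp (tendsto_add_atTop_nat 1)
  have h2 : Tendsto (fun t => ∑ u, P v u * hv P T r t u) atTop
      (𝓝 (∑ u, P v u * H P T r u)) :=
    tendsto_finset_sum _ fun u _ => (H_tendsto hC h0 hr u).const_mul _
  refine tendsto_nhds_unique h1 (h2.congr fun t => ?_)
  simp only [Function.comp_apply]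
  rw [hv_succ h]

theorem H_nonneg (hC : IsChain P T) (h0 : ∀ v, 0 ≤ r v) (hr : ∀ v, r v ≤ 1) (v : V) :
    0 ≤ H P T r v :=
  ge_of_tendsto' (H_tendsto hC h0 hr v) fun t => hv_nonneg hC.nonneg h0 t v

theorem H_le_one (hC : IsChain P T) (h0 : ∀ v, 0 ≤ r v) (hr : ∀ v, r v ≤ 1) (v : V) :
    H P T r v ≤ 1 :=
  le_of_tendsto' (H_tendsto hC h0 hr v) fun t => hv_le_one hC hr t v

theorem H_le (hC : IsChain P T) (h0r : ∀ v, 0 ≤ r v) (hr : ∀ v, r v ≤ 1) (C : Set V)
    (g : V → ℝ)
    (h0 : ∀ v ∈ C, T v = false → 0 ≤ g v) (h1 : ∀ v ∈ C, T v = true → r v ≤ g v)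
    (h2 : ∀ v ∈ C, T v = false → ∀ u, P v u ≠ 0 → u ∈ C)
    (h3 : ∀ v ∈ C, T v = false → ∑ u, P v u * g u ≤ g v) {v : V} (hv' : v ∈ C) :
    H P T r v ≤ g v :=
  le_of_tendsto' (H_tendsto hC h0r hr v) fun t => hv_le hC.nonneg C g h0 h1 h2 h3 t v hv'

theorem hv_add (r' : V → ℝ) (t : ℕ) (v : V) :
    hv P T (fun v => r v + r' v) t v = hv P T r t v + hv P T r' t v := by
  induction t generalizing v with
  | zero =>
    cases h : T v
    · simp [hv_zero h]
    · simp [hv_term h]
  | succ t ih =>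
    cases h : T v
    · rw [hv_succ h, hv_succ h, hv_succ h, ← sum_add_distrib]
      exact sum_congr rfl fun u _ => by rw [ih]; ring
    · simp [hv_term h]

/-- If `r + r' = 1` and absorption is certain then the two values add up to one. -/
theorem H_compl (hC : IsChain P T) (r' : V → ℝ) (h0 : ∀ v, 0 ≤ r v) (h0' : ∀ v, 0 ≤ r' v)
    (h1 : ∀ v, r v + r' v = 1) {v : V} (ha : H P T (fun _ => 1) v = 1) :
    H P T r v = 1 - H P T r' v := by
  have hr : ∀ v, r v ≤ 1 := fun v => by linarith [h1 v, h0' v]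
  have hr' : ∀ v, r' v ≤ 1 := fun v => by linarith [h1 v, h0 v]
  have e1 := (H_tendsto hC h0 hr v).add (H_tendsto hC h0' hr' v)
  have e2 := H_tendsto (P := P) (T := T) (r := fun _ => 1) hC (fun _ => zero_le_one)
    (fun _ => le_rfl) v
  have e3 : ∀ t, hv P T r t v + hv P T r' t v = hv P T (fun _ => 1) t v := by
    intro t
    rw [← hv_add]
    congr 1
    funext w
    exact h1 w
  have e4 := tendsto_nhds_unique (e1.congr e3) e2
  rw [ha] at e4
  linarith

/-- If a convex combination of numbers `≤ 1` equals `1`, all of them are `1`. -/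
theorem eq_of_avg {p a : V → ℝ} {m : ℝ} (hp : ∀ u, 0 ≤ p u) (hs : ∑ u, p u = 1)
    (ha : ∀ u, p u ≠ 0 → m ≤ a u) (h : ∑ u, p u * a u = m) {u : V} (hu : p u ≠ 0) : a u = m := by
  have h1 : ∑ u, p u * (a u - m) = 0 := by
    simp only [mul_sub, sum_sub_distrib, ← sum_mul, hs, h]
    ring
  have h2 : ∀ u ∈ (univ : Finset V), 0 ≤ p u * (a u - m) := by
    intro u _
    by_cases hu : p u = 0
    · simp [hu]
    · exact mul_nonneg (hp u) (by linarith [ha u hu])
  have h3 := (sum_eq_zero_iff_of_nonneg h2).mp h1 u (mem_univ u)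
  rcases mul_eq_zero.mp h3 with h4 | h4
  · exact absurd h4 hu
  · linarith

/-- Absorption is certain if no nonempty closed set avoids the terminal states. -/
theorem absorbed (hC : IsChain P T) (C : Set V)
    (h2 : ∀ v ∈ C, T v = false → ∀ u, P v u ≠ 0 → u ∈ C)
    (hS : ∀ S : Set V, S ⊆ C → S.Nonempty → (∀ v ∈ S, T v = false ∧ ∀ u, P v u ≠ 0 → u ∈ S) →
      False) {v : V} (hv' : v ∈ C) : H P T (fun _ => 1) v = 1 := by
  classical
  have e0 : ∀ v : V, (0 : ℝ) ≤ (fun _ : V => (1 : ℝ)) v := fun _ => zero_le_one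
  have e1 : ∀ v : V, (fun _ : V => (1 : ℝ)) v ≤ 1 := fun _ => le_rfl
  obtain ⟨w, hw, hmin⟩ := (Set.toFinite C).exists_minimalFor
    (fun v => H P T (fun _ => 1) v) C ⟨v, hv'⟩
  have hmin' : ∀ u ∈ C, H P T (fun _ => 1) w ≤ H P T (fun _ => 1) u := by
    intro u hu
    rcases le_total (H P T (fun _ => 1) w) (H P T (fun _ => 1) u) with h | h
    · exact h
    · exact hmin hu h
  by_contra hne
  have hlt : H P T (fun _ => 1) w < 1 :=
    lt_of_le_of_lt (hmin' v hv') (lt_of_le_of_ne (H_le_one hC e0 e1 v) hne)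
  refine hS {u | u ∈ C ∧ H P T (fun _ => 1) u = H P T (fun _ => 1) w} (fun u hu => hu.1)
    ⟨w, hw, rfl⟩ ?_
  rintro u ⟨hu1, hu2⟩
  have hT : T u = false := by
    by_contra hc
    simp only [Bool.not_eq_false] at hc
    rw [H_term hc] at hu2
    linarith
  refine ⟨hT, fun x hx => ⟨h2 u hu1 hT x hx, ?_⟩⟩
  exact eq_of_avg (hC.nonneg u) (hC.sum u hT) (fun y hy => hmin' y (h2 u hu1 hT y hy))
    (by rw [← hu2]; exact (H_harm hC e0 e1 hT).symm) hx

/-- The set where the value is `1` is closed. -/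
theorem one_closed (hC : IsChain P T) (h0 : ∀ v, 0 ≤ r v) (hr : ∀ v, r v ≤ 1) {v : V}
    (h : H P T r v = 1) (hT : T v = false) {u : V} (hu : P v u ≠ 0) : H P T r u = 1 := by
  have h1 : ∑ u, P v u * (1 - H P T r u) = 0 := by
    simp only [mul_sub, mul_one, sum_sub_distrib, hC.sum v hT, ← H_harm hC h0 hr hT, h]
    ring
  have h2 := eq_of_avg (p := P v) (a := fun u => 1 - H P T r u) (m := 0) (hC.nonneg v)
    (hC.sum v hT) (fun u _ => by linarith [H_le_one hC h0 hr u]) h1 hu
  linarith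

/-- On a closed set without terminal states the value is `0`. -/
theorem zero_of_closed (hC : IsChain P T) (h0 : ∀ v, 0 ≤ r v) (hr : ∀ v, r v ≤ 1) (S : Set V)
    (hS : ∀ v ∈ S, T v = false ∧ ∀ u, P v u ≠ 0 → u ∈ S) {v : V} (hv' : v ∈ S) :
    H P T r v = 0 := by
  refine le_antisymm ?_ (H_nonneg hC h0 hr v)
  refine H_le hC h0 hr S (fun _ => 0) (fun _ _ _ => le_rfl) (fun v hv h => ?_)
    (fun v hv _ => (hS v hv).2) (fun _ _ _ => by simp) hv'
  rw [(hS v hv).1] at h
  exact absurd h (by decide)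

end chain

end Pool.Agent.R645.NE
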