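import Pool.Agent.R645.NE.Forced

set_option autoImplicit false

open Finset Filter Topology

namespace Pool.Agent.R645.NE

variable {n : ℕ}

/-- The deviation of player `m + 1`. -/
noncomputable def dv (σ : Vx n → Vx n → ℝ) (m : ℕ) (hm : m < n) (c : Vx n) : Vx n → Vx n → ℝ
  | .ya l => if l.val = m + 1 then one Vx.W else σ (Vx.ya l)
  | .yb l => if l.val = m then one (Vx.ct l) else σ (Vx.yb l)
  | .ha l => if l.val = m then one c else σ (Vx.ha l)
  | .hb l => if l.val = m + 1 then one (Vx.cf ⟨m, by omega⟩) else σ (Vx.hb l)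
  | .init => σ Vx.init
  | .X => σ Vx.X
  | .W => σ Vx.W
  | .cf l => σ (Vx.cf l)
  | .ct l => σ (Vx.ct l)
  | .D l => σ (Vx.D l)
  | .Y l => σ (Vx.Y l)

section ctx

variable {σ : Vx n → Vx n → ℝ} {m : ℕ} {hm : m < n} {c : Vx n}

theorem dv_off (v : Vx n) (hk : (Gm n).kind v ≠ Kind.player ⟨m + 1, by omega⟩) :
    dv σ m hm c v = σ v := by
  cases v with
  | ya l =>
    simp only [dv]
    rw [if_neg]
    intro h
    apply hk
    show Kind.player l.castSucc = _
    congr 1
    ext
    simp [h]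
  | hb l =>
    simp only [dv]
    rw [if_neg]
    intro h
    apply hk
    show Kind.player l.castSucc = _
    congr 1
    ext
    simp [h]
  | yb l =>
    simp only [dv]
    rw [if_neg]
    intro h
    apply hk
    show Kind.player (up l) = _
    unfold up
    rw [if_neg (by omega)]
    congr 1
    ext
    simp [h]
  | ha l =>
    simp only [dv]
    rw [if_neg]
    intro h
    apply hk
    show Kind.player (up l) = _
    unfold up
    rw [if_neg (by omega)]
    congr 1
    ext
    simp [h]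
  | _ => rfl

/-- The admissible targets. -/
def Adm (m : ℕ) (c : Vx n) : Prop :=
  (∃ l : Fin (n + 1), c = Vx.ct l ∧ l.val = m + 1) ∨
    (∃ l : Fin (n + 1), c = Vx.cf l ∧ l.val = m + 1 ∧ m + 1 < n)

theorem one_profile {v a : Vx n} (h : adjR n v a) :
    (∀ u, 0 ≤ (one a u : ℝ)) ∧ (∀ u, (one a u : ℝ) ≠ 0 → (Gm n).adj v u) ∧
      ∑ u, (one a u : ℝ) = 1 := by
  refine ⟨one_nonneg _, fun u hu => ?_, sum_one _⟩
  rw [one_supp hu]
  exact h

theorem dv_profile (hp : (Gm n).IsProfile (Game.stat σ)) (hc : Adm m c) :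
    (Gm n).IsProfile (Game.stat (dv σ m hm c)) := by
  intro past v i hk
  by_cases hk' : (Gm n).kind v = Kind.player ⟨m + 1, by omega⟩
  · show (∀ u, 0 ≤ dv σ m hm c v u) ∧ (∀ u, dv σ m hm c v u ≠ 0 → (Gm n).adj v u) ∧
      ∑ u, dv σ m hm c v u = 1
    have hσ := hp past v i hk
    change (∀ u, 0 ≤ σ v u) ∧ (∀ u, σ v u ≠ 0 → (Gm n).adj v u) ∧ ∑ u, σ v u = 1 at hσ
    cases v with
    | ya l =>
      simp only [dv]
      split_ifs with h
      · exact one_profile (by simp [adjR])
      · exact hσ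
    | yb l =>
      simp only [dv]
      split_ifs with h
      · exact one_profile (by simp [adjR])
      · exact hσ
    | hb l =>
      simp only [dv]
      split_ifs with h
      · exact one_profile (by simp [adjR, h])
      · exact hσ
    | ha l =>
      simp only [dv]
      split_ifs with h
      · refine one_profile ?_
        rcases hc with ⟨l', rfl, h1⟩ | ⟨l', rfl, h1, h2⟩
        · simp only [adjR]; omega
        · simp only [adjR]; omega
      · exact hσ
    | _ => exact hσ
  · have := hp past v i hk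
    show (∀ u, 0 ≤ dv σ m hm c v u) ∧ (∀ u, dv σ m hm c v u ≠ 0 → (Gm n).adj v u) ∧
      ∑ u, dv σ m hm c v u = 1
    rw [dv_off v hk']
    exact this

theorem Q_off (v : Vx n) (hk : (Gm n).kind v ≠ Kind.player ⟨m + 1, by omega⟩) :
    (Gm n).P (dv σ m hm c) v = (Gm n).P σ v := by
  funext u
  unfold Game.P
  rw [dv_off v hk]

theorem Q_init : (Gm n).P (dv σ m hm c) Vx.init = (Gm n).P σ Vx.init := rfl
theorem Q_X : (Gm n).P (dv σ m hm c) Vx.X = (Gm n).P σ Vx.X := rfl
theorem Q_cf (l : Fin (n + 1)) : (Gm n).P (dv σ m hm c) (Vx.cf l) = (Gm n).P σ (Vx.cf l) := rfl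
theorem Q_ct (l : Fin (n + 1)) : (Gm n).P (dv σ m hm c) (Vx.ct l) = (Gm n).P σ (Vx.ct l) := rfl
theorem Q_ya {l : Fin (n + 1)} (h : l.val ≠ m + 1) :
    (Gm n).P (dv σ m hm c) (Vx.ya l) = (Gm n).P σ (Vx.ya l) := by
  show dv σ m hm c (Vx.ya l) = σ (Vx.ya l)
  simp only [dv]
  rw [if_neg h]
theorem Q_ya' {l : Fin (n + 1)} (h : l.val = m + 1) :
    (Gm n).P (dv σ m hm c) (Vx.ya l) = one Vx.W := by
  show dv σ m hm c (Vx.ya l) = _
  simp only [dv]
  rw [if_pos h]
theorem Q_yb {l : Fin (n + 1)} (h : l.val ≠ m) :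
    (Gm n).P (dv σ m hm c) (Vx.yb l) = (Gm n).P σ (Vx.yb l) := by
  show dv σ m hm c (Vx.yb l) = σ (Vx.yb l)
  simp only [dv]
  rw [if_neg h]
theorem Q_yb' {l : Fin (n + 1)} (h : l.val = m) :
    (Gm n).P (dv σ m hm c) (Vx.yb l) = one (Vx.ct l) := by
  show dv σ m hm c (Vx.yb l) = _
  simp only [dv]
  rw [if_pos h]
theorem Q_ha {l : Fin (n + 1)} (h : l.val ≠ m) :
    (Gm n).P (dv σ m hm c) (Vx.ha l) = (Gm n).P σ (Vx.ha l) := by
  show dv σ m hm c (Vx.ha l) = σ (Vx.ha l)
  simp only [dv]
  rw [if_neg h]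
theorem Q_ha' {l : Fin (n + 1)} (h : l.val = m) :
    (Gm n).P (dv σ m hm c) (Vx.ha l) = one c := by
  show dv σ m hm c (Vx.ha l) = _
  simp only [dv]
  rw [if_pos h]
theorem Q_hb {l : Fin (n + 1)} (h : l.val ≠ m + 1) :
    (Gm n).P (dv σ m hm c) (Vx.hb l) = (Gm n).P σ (Vx.hb l) := by
  show dv σ m hm c (Vx.hb l) = σ (Vx.hb l)
  simp only [dv]
  rw [if_neg h]
theorem Q_hb' {l : Fin (n + 1)} (h : l.val = m + 1) :
    (Gm n).P (dv σ m hm c) (Vx.hb l) = one (Vx.cf ⟨m, by omega⟩) := by
  show dv σ m hm c (Vx.hb l) = _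
  simp only [dv]
  rw [if_pos h]

/-- The closed set. -/
def CC (σ : Vx n → Vx n → ℝ) (m : ℕ) : Vx n → Prop
  | .init => True
  | .X => m + 1 ≠ n
  | .W => True
  | .hb l => l.val ≠ m ∧ (l.val < m → RR σ (Vx.hb l))
  | .D l => l.val ≠ m ∧ l.val ≠ m + 1
  | .Y _ => True
  | .cf l => l.val < m → RR σ (Vx.cf l)
  | .ct l => l.val < m → RR σ (Vx.ct l)
  | .ya l => l.val < m → RR σ (Vx.ya l)
  | .yb l => l.val < m → RR σ (Vx.yb l)
  | .ha l => l.val < m → RR σ (Vx.ha l)

theorem CC_closed (hp : (Gm n).IsProfile (Game.stat σ)) (h0 : RR σ Vx.init) (hc : Adm m c)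
    {v u : Vx n} (hv : CC σ m v) (hT : (Gm n).T v = false)
    (hu : (Gm n).P (dv σ m hm c) v u ≠ 0) : CC σ m u := by
  cases v with
  | init =>
    rw [Q_init] at hu
    obtain ⟨l, rfl⟩ := adj_init ((Gm n).P_adj hp hu)
    exact fun _ => RR_ha hp h0 l
  | X =>
    rw [Q_X] at hu
    simp only [CC] at hv
    rcases adj_X ((Gm n).P_adj hp hu) with ⟨l, rfl, hl⟩ | ⟨l, rfl, hl⟩
    · simp only [CC]; omega
    · simp only [CC]; intro h; omega
  | W => simp [T_W] at hT
  | D l => simp [T_D] at hT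
  | Y l => simp [T_Y] at hT
  | cf l =>
    rw [Q_cf] at hu
    have hR : l.val < m → RR σ u := fun h => RR_closed hp (hv h) hT hu
    rcases adj_cf ((Gm n).P_adj hp hu) with rfl | rfl <;> exact hR
  | ct l =>
    rw [Q_ct] at hu
    have hR : l.val < m → RR σ u := fun h => RR_closed hp (hv h) hT hu
    rcases adj_ct ((Gm n).P_adj hp hu) with rfl | rfl
    · trivial
    · exact hR
  | ya l =>
    by_cases hl : l.val = m + 1
    · rw [Q_ya' hl] at hu
      rw [one_supp hu]
      trivial
    · rw [Q_ya hl] at hu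
      have hR : l.val < m → RR σ u := fun h => RR_closed hp (hv h) hT hu
      rcases adj_ya ((Gm n).P_adj hp hu) with rfl | rfl
      · trivial
      · exact hR
  | yb l =>
    by_cases hl : l.val = m
    · rw [Q_yb' hl] at hu
      rw [one_supp hu]
      simp only [CC]
      intro h
      omega
    · rw [Q_yb hl] at hu
      have hR : l.val < m → RR σ u := fun h => RR_closed hp (hv h) hT hu
      rcases adj_yb ((Gm n).P_adj hp hu) with rfl | rfl
      · trivial
      · exact hR
  | ha l =>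
    by_cases hl : l.val = m
    · rw [Q_ha' hl] at hu
      rw [one_supp hu]
      rcases hc with ⟨l', rfl, h1⟩ | ⟨l', rfl, h1, h2⟩
      · simp only [CC]; intro h; omega
      · simp only [CC]; intro h; omega
    · rw [Q_ha hl] at hu
      have hR : l.val < m → RR σ u := fun h => RR_closed hp (hv h) hT hu
      rcases adj_ha ((Gm n).P_adj hp hu) with rfl | ⟨l', rfl, h1, h2⟩ | ⟨l', rfl, h1⟩
      · exact ⟨hl, hR⟩
      · simp only [CC]; intro h; exact hR (by omega)
      · simp only [CC]; intro h; exact hR (by omega)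
  | hb l =>
    obtain ⟨hlm, hv⟩ := hv
    by_cases hl : l.val = m + 1
    · rw [Q_hb' hl] at hu
      rw [one_supp hu]
      simp only [CC]
      intro h
      omega
    · rw [Q_hb hl] at hu
      have hR : l.val < m → RR σ u := fun h => RR_closed hp (hv h) hT hu
      rcases adj_hb ((Gm n).P_adj hp hu) with ⟨rfl, h1⟩ | ⟨rfl, h1⟩ | ⟨l', rfl, h1⟩
      · exact ⟨hlm, hl⟩
      · simp only [CC]; omega
      · simp only [CC]; intro h; exact hR (by omega)

/-- The bounding function for the losing probability. -/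
noncomputable def gg (m : ℕ) (c : Vx n) (δt θ θ1 : ℝ) : Vx n → ℝ
  | .init => θ1
  | .X => θ1
  | .W => 0
  | .cf l => if Vx.cf l = c then θ else θ1
  | .ct l => if l.val = m then δt + (1 - δt) * θ else if Vx.ct l = c then θ else θ1
  | .ya l => if l.val = m then δt + (1 - δt) * θ else if l.val = m + 1 then 0 else θ1
  | .yb l => if l.val = m then δt + (1 - δt) * θ else θ1
  | .ha l => if l.val = m then θ else θ1
  | .hb _ => θ1
  | .D _ => 0
  | .Y l => if l.val = m then 1 else 0

theorem gg_nonneg {δt θ θ1 : ℝ} (h1 : 0 ≤ δt) (h2 : δt ≤ 1) (h3 : 0 ≤ θ) (h4 : θ ≤ θ1)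
    (v : Vx n) : 0 ≤ gg m c δt θ θ1 v := by
  have h5 : 0 ≤ δt + (1 - δt) * θ := by nlinarith
  have h6 : 0 ≤ θ1 := h3.trans h4
  cases v <;> simp only [gg] <;> (try split_ifs) <;> first | assumption | norm_num

theorem gg_super (hp : (Gm n).IsProfile (Game.stat σ)) (hc : Adm m c)
    {δ θ θ1 : ℝ} {mf : Fin (n + 1)} (hmf : mf.val = m)
    (hδ : ∀ g : Vx n → ℝ, g Vx.W = 0 → (∀ l : Fin (n + 1), l.val = m + 1 → g (Vx.Y l) = 0 ∧
      g (Vx.ya l) = 0) → ∀ l : Fin (n + 1), l.val = m + 1 →
      ∑ u, (Gm n).P σ c u * g u = (1 - δ) * g (Vx.ha l))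
    (h3 : 0 ≤ θ) (h4 : θ ≤ θ1) (e1 : θ = (1 - δ) * θ1)
    (e2 : θ1 = df σ mf * dt σ mf + (1 - df σ mf * dt σ mf) * θ)
    {v : Vx n} (hv : CC σ m v) (hT : (Gm n).T v = false) :
    ∑ u, (Gm n).P (dv σ m hm c) v u * gg m c (dt σ mf) θ θ1 u ≤ gg m c (dt σ mf) θ θ1 v := by
  have hchain := (Gm n).isChain hp
  have hmf' : ∀ l : Fin (n + 1), l.val = m → l = mf := fun l h => Fin.ext (h.trans hmf.symm)
  have h30 : 0 ≤ θ1 := h3.trans h4
  have hcf : ∀ l : Fin (n + 1), gg m c (dt σ mf) θ θ1 (Vx.cf l) ≤ θ1 := by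
    intro l
    simp only [gg]
    split_ifs <;> linarith
  have hct : ∀ l : Fin (n + 1), l.val ≠ m → gg m c (dt σ mf) θ θ1 (Vx.ct l) ≤ θ1 := by
    intro l hl
    simp only [gg]
    rw [if_neg hl]
    split_ifs <;> linarith
  have hha : ∀ l : Fin (n + 1), gg m c (dt σ mf) θ θ1 (Vx.ha l) ≤ θ1 := by
    intro l
    simp only [gg]
    split_ifs <;> linarith
  have hY : ∀ l : Fin (n + 1), l.val ≠ m → gg m c (dt σ mf) θ θ1 (Vx.Y l) = 0 := by
    intro l hl
    simp only [gg]
    rw [if_neg hl]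
  have hcc : c ≠ Vx.cf mf ∧ gg m c (dt σ mf) θ θ1 c = θ := by
    rcases hc with ⟨l', rfl, h1⟩ | ⟨l', rfl, h1, h2⟩
    · refine ⟨by simp, ?_⟩
      simp only [gg]
      rw [if_neg (by omega)]
      simp
    · refine ⟨?_, ?_⟩
      · intro h
        simp only [Vx.cf.injEq] at h
        subst h
        omega
      · simp only [gg]
        simp
  have hcrow : ∀ l : Fin (n + 1), l.val = m + 1 →
      ∑ u, (Gm n).P σ c u * gg m c (dt σ mf) θ θ1 u = θ := by
    intro l hl
    rw [hδ _ rfl (fun l' hl' => ⟨hY l' (by omega), ?_⟩) l hl]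
    · simp only [gg]
      rw [if_neg (by omega)]
      exact e1.symm
    · simp only [gg]
      rw [if_neg (by omega), if_pos hl']
  cases v with
  | init =>
    rw [Q_init]
    refine avg_le (hchain.nonneg _) (hchain.sum _ T_init) fun u hu => ?_
    obtain ⟨l, rfl⟩ := adj_init ((Gm n).P_adj hp hu)
    exact hha l
  | X =>
    rw [Q_X]
    refine avg_le (hchain.nonneg _) (hchain.sum _ T_X) fun u hu => ?_
    rcases adj_X ((Gm n).P_adj hp hu) with ⟨l, rfl, hl⟩ | ⟨l, rfl, hl⟩
    · exact h30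
    · exact hct l (by omega)
  | W => simp [T_W] at hT
  | D l => simp [T_D] at hT
  | Y l => simp [T_Y] at hT
  | cf l =>
    rw [Q_cf]
    by_cases hlc : Vx.cf l = c
    · rcases hc with ⟨l', rfl, h1⟩ | ⟨l', h0, h1, h2⟩
      · simp at hlc
      · rw [h0] at hlc
        simp only [Vx.cf.injEq] at hlc
        subst hlc
        rw [← h0, hcrow l h1, hcc.2]
    · rw [row_cf hp]
      have e : gg m c (dt σ mf) θ θ1 (Vx.cf l) = θ1 := by
        simp only [gg]
        rw [if_neg hlc]
      rw [e]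
      by_cases hl : l.val = m
      · have := hmf' l hl
        subst this
        simp only [gg]
        rw [if_pos hl, if_pos hl]
        linarith
      · have h5 : gg m c (dt σ mf) θ θ1 (Vx.ya l) ≤ θ1 := by
          simp only [gg]
          rw [if_neg hl]
          split_ifs <;> linarith
        have h6 := hha l
        have h7 := df_nonneg hp l
        have h8 := df_le_one hp l
        nlinarith
  | ct l =>
    rw [Q_ct]
    by_cases hl : l.val = m
    · have := hmf' l hl
      subst this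
      rw [row_ct hp]
      simp only [gg]
      rw [if_pos hl, if_pos hl, if_pos hl]
      linarith
    · by_cases hlc : Vx.ct l = c
      · rcases hc with ⟨l', h0, h1⟩ | ⟨l', rfl, h1, h2⟩
        · rw [h0] at hlc
          simp only [Vx.ct.injEq] at hlc
          subst hlc
          rw [← h0, hcrow l h1, hcc.2]
        · simp at hlc
      · rw [row_ct hp, hY l hl]
        have e : gg m c (dt σ mf) θ θ1 (Vx.ct l) = θ1 := by
          simp only [gg]
          rw [if_neg hl, if_neg hlc]
        rw [e]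
        have h6 := hha l
        have h7 := dt_nonneg hp l
        have h8 := dt_le_one hp l
        nlinarith
  | ya l =>
    by_cases hl1 : l.val = m + 1
    · rw [Q_ya' hl1, sum_one_mul]
      simp only [gg]
      rw [if_neg (by omega), if_pos hl1]
    · rw [Q_ya hl1]
      refine avg_le (hchain.nonneg _) (hchain.sum _ (T_ya l)) fun u hu => ?_
      rcases adj_ya ((Gm n).P_adj hp hu) with rfl | rfl
      · have := gg_nonneg (m := m) (c := c) (dt_nonneg hp mf) (dt_le_one hp mf) h3 h4 (Vx.ya l)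
        exact this
      · simp only [gg]
        by_cases hl : l.val = m
        · rw [if_pos hl, if_pos hl]
        · rw [if_neg hl, if_neg hl, if_neg hl1]
  | yb l =>
    by_cases hl : l.val = m
    · rw [Q_yb' hl, sum_one_mul]
      simp only [gg]
      rw [if_pos hl, if_pos hl]
    · rw [Q_yb hl]
      have e : gg m c (dt σ mf) θ θ1 (Vx.yb l) = θ1 := by
        simp only [gg]
        rw [if_neg hl]
      rw [e]
      refine avg_le (hchain.nonneg _) (hchain.sum _ (T_yb l)) fun u hu => ?_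
      rcases adj_yb ((Gm n).P_adj hp hu) with rfl | rfl
      · rw [hY l hl]; exact h30
      · exact hct l hl
  | ha l =>
    by_cases hl : l.val = m
    · rw [Q_ha' hl, sum_one_mul, hcc.2]
      simp only [gg]
      rw [if_pos hl]
    · have e : gg m c (dt σ mf) θ θ1 (Vx.ha l) = θ1 := by
        simp only [gg]
        rw [if_neg hl]
      rw [e, Q_ha hl]
      refine avg_le (hchain.nonneg _) (hchain.sum _ (T_ha l)) fun u hu => ?_
      rcases adj_ha ((Gm n).P_adj hp hu) with rfl | ⟨l', rfl, h1, h2⟩ | ⟨l', rfl, h1⟩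
      · exact le_rfl
      · exact hcf l'
      · by_cases hl' : l'.val = m
        · -- the only entrance from below
          have hR : RR σ (Vx.ct l') := RR_closed hp (hv (by omega)) hT hu
          have hz : dt σ mf = 0 := by
            have := hmf' l' hl'
            subst this
            by_contra hne
            exact not_RR_Y (by omega) (RR_closed hp hR (T_ct _) hne)
          simp only [gg]
          rw [if_pos hl', hz]
          linarith
        · exact hct l' hl'
  | hb l =>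
    by_cases hl : l.val = m + 1
    · rw [Q_hb' hl, sum_one_mul]
      exact hcf _
    · rw [Q_hb hl]
      refine avg_le (hchain.nonneg _) (hchain.sum _ (T_hb l)) fun u hu => ?_
      rcases adj_hb ((Gm n).P_adj hp hu) with ⟨rfl, h1⟩ | ⟨rfl, h1⟩ | ⟨l', rfl, h1⟩
      · exact h30
      · exact le_rfl
      · exact hcf l'

end ctx

end Pool.Agent.R645.NE
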