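import Pool.Agent.R645.NE.Exist

set_option autoImplicit false

open Finset Filter Topology

namespace Pool.Agent.R645.NE

variable {n : ℕ}

/-- The bounding function for player `m + 1`. -/
noncomputable def Fp (n m : ℕ) : Vx n → ℝ
  | .init => ((n : ℝ) - 1 + 1 / 8 + (1 - del n m ^ 2) / 8) / (n + 1)
  | .X => if m + 1 = n then (1 - del n m ^ 2) / 8 else 1
  | .W => 1
  | .cf l => if l.val = m + 1 then 1 / 8 else if l.val = m then (1 - del n m ^ 2) / 8 else 1
  | .ct l => if l.val = m + 1 then 1 / 8 else if l.val = m then (1 - del n m) / 8 else 1
  | .ya l => if l.val = m then (1 - del n m) / 8 else 1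
  | .yb l => if l.val = m then (1 - del n m) / 8 else 1
  | .ha l => if l.val = m + 1 then (1 - del n m ^ 2) / 8 else if l.val = m then 1 / 8 else 1
  | .hb l => if l.val = m + 1 then (1 - del n m ^ 2) / 8 else if l.val = m then 0 else 1
  | .D l => if l.val = m + 1 ∨ l.val = m then 0 else 1
  | .Y l => if l.val = m then 0 else 1

theorem sum_Fp_ha {m : ℕ} (hm : m < n) :
    ∑ l : Fin (n + 1), Fp n m (Vx.ha l) = (n : ℝ) - 1 + 1 / 8 + (1 - del n m ^ 2) / 8 := by
  have h1 : ∀ l : Fin (n + 1), Fp n m (Vx.ha l) =
      1 - (if l = ⟨m + 1, by omega⟩ then 1 - (1 - del n m ^ 2) / 8 else 0) -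
        (if l = ⟨m, by omega⟩ then 1 - 1 / 8 else 0) := by
    intro l
    simp only [Fp, Fin.ext_iff]
    split_ifs with a b b
    · omega
    · ring
    · ring
    · ring
  rw [sum_congr rfl fun l _ => h1 l, sum_sub_distrib, sum_sub_distrib]
  simp
  ring

theorem Fp_bounds (hn : 1 ≤ n) {m : ℕ} (hm : m < n) (v : Vx n) : 0 ≤ Fp n m v ∧ Fp n m v ≤ 1 := by
  have hd := del_pos (n := n) m
  have hd8 := del_le hn m
  have hs := sq_le hn m
  have hs0 : 0 < del n m ^ 2 := by positivity
  have hn1 : (1 : ℝ) ≤ n := by exact_mod_cast hn
  cases v with
  | init =>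
    simp only [Fp]
    constructor
    · apply div_nonneg <;> linarith
    · rw [div_le_one (by linarith)]
      linarith
  | _ => simp only [Fp]; (try split_ifs) <;> constructor <;> linarith

theorem Fp_super (hn : 1 ≤ n) {m : ℕ} (hm : m < n) (v : Vx n) (hT : (Gm n).T v = false)
    (hk : (Gm n).kind v ≠ Kind.player ⟨m + 1, by omega⟩) :
    ∑ u, (Gm n).P (sg n) v u * Fp n m u ≤ Fp n m v := by
  have hd := del_pos (n := n) m
  have hd8 := del_le hn m
  have hs := sq_le hn m
  have hs0 : 0 < del n m ^ 2 := by positivity
  have hdm : del n (m + 1) = del n m ^ 2 / 8 := rfl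
  have hb : ∀ l : ℕ, 0 < del n l ∧ del n l ≤ 1 / 8 := fun l => ⟨del_pos l, del_le hn l⟩
  obtain ⟨δ, hδ⟩ : ∃ δ, δ = del n m := ⟨_, rfl⟩
  cases v with
  | init =>
    have := sum_unif_mul (n := n) (Fp n m)
    simp only [P_init]
    rw [this, sum_Fp_ha hm]
    exact le_rfl
  | X =>
    rw [P_X, sum_two_mul]
    simp only [Fp, Fin.val_last]
    by_cases h : m + 1 = n
    · have h1 : n - 1 = m := by omega
      rw [if_pos (Or.inl h.symm), if_pos h.symm, if_pos h, h1]
      linarith
    · rw [if_neg (by omega), if_neg (by omega), if_neg (by omega), if_neg h]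
      linarith
  | W => simp [T_W] at hT
  | cf l =>
    rw [P_cf, sum_two_mul]
    obtain ⟨b1, b2⟩ := hb l.val
    simp only [Fp]
    by_cases h : l.val = m + 1
    · rw [if_neg (by omega), if_pos h, if_pos h, h, hdm]
      nlinarith
    · by_cases h' : l.val = m
      · rw [if_pos h', if_neg h, if_pos h', if_neg h, if_pos h', h']
        nlinarith
      · simp only [if_neg h, if_neg h']
        linarith
  | ct l =>
    rw [P_ct, sum_two_mul]
    obtain ⟨b1, b2⟩ := hb l.val
    simp only [Fp]
    by_cases h : l.val = m + 1
    · rw [if_neg (by omega), if_pos h, if_pos h, h, hdm]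
      nlinarith
    · by_cases h' : l.val = m
      · rw [if_pos h', if_neg h, if_pos h', if_neg h, if_pos h', h']
        nlinarith
      · simp only [if_neg h, if_neg h']
        linarith
  | ya l =>
    rw [P_ya, sum_one_mul]
    simp only [Fp]
    exact le_rfl
  | yb l =>
    rw [P_yb, sum_one_mul]
    simp only [Fp]
    have hlm : l.val ≠ m := by
      intro h
      apply hk
      show Kind.player (up l) = _
      unfold up
      rw [if_neg (by omega)]
      congr 1
      ext
      simp [h]
    rw [if_neg hlm, if_neg hlm]
  | ha l =>
    rw [P_ha, sum_one_mul]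
    simp only [Fp]
    have hlm : l.val ≠ m := by
      intro h
      apply hk
      show Kind.player (up l) = _
      unfold up
      rw [if_neg (by omega)]
      congr 1
      ext
      simp [h]
    rw [if_neg hlm, if_neg hlm]
  | hb l =>
    have hlm : l.val ≠ m + 1 := by
      intro h
      apply hk
      show Kind.player l.castSucc = _
      congr 1
      ext
      simp [h]
    rw [P_hb]
    by_cases hl : l.val = n
    · rw [if_pos hl, sum_one_mul]
      simp only [Fp]
      rw [if_neg (by omega), if_neg hlm, if_neg (by omega)]
    · rw [if_neg hl, sum_one_mul]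
      simp only [Fp]
      by_cases h : l.val = m
      · rw [if_pos (Or.inr h), if_neg hlm, if_pos h]
      · rw [if_neg (by omega), if_neg hlm, if_neg h]
  | D l => simp [T_D] at hT
  | Y l => simp [T_Y] at hT

theorem Fp_dev (hn : 1 ≤ n) {m : ℕ} (hm : m < n) (v : Vx n)
    (hk : (Gm n).kind v = Kind.player ⟨m + 1, by omega⟩) (u : Vx n) (hu : (Gm n).adj v u) :
    Fp n m u ≤ Fp n m v := by
  have hd := del_pos (n := n) m
  have hd8 := del_le hn m
  have hs := sq_le hn m
  have hs0 : 0 < del n m ^ 2 := by positivity
  have hu' : adjR n v u := hu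
  have hk' : kindR n v = Kind.player ⟨m + 1, by omega⟩ := hk
  have hbd := fun v => (Fp_bounds hn hm v).2
  cases v with
  | init => simp [kindR] at hk'
  | W => simp [kindR] at hk'
  | D l => simp [kindR] at hk'
  | Y l => simp [kindR] at hk'
  | X =>
    simp only [kindR, Kind.player.injEq, Fin.ext_iff, Fin.val_last] at hk'
    omega
  | cf l =>
    simp only [kindR] at hk'
    split_ifs at hk'
    simp only [Kind.player.injEq, Fin.ext_iff, Fin.val_last] at hk'
    omega
  | ct l =>
    simp only [kindR] at hk'
    split_ifs at hk'
    simp only [Kind.player.injEq, Fin.ext_iff, Fin.val_last] at hk'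
    omega
  | ya l =>
    simp only [kindR, Kind.player.injEq, Fin.ext_iff, Fin.val_castSucc] at hk'
    have : Fp n m (Vx.ya l) = 1 := by
      simp only [Fp]
      rw [if_neg (by omega)]
    rw [this]
    exact hbd u
  | hb l =>
    simp only [kindR, Kind.player.injEq, Fin.ext_iff, Fin.val_castSucc] at hk'
    have : Fp n m (Vx.hb l) = (1 - del n m ^ 2) / 8 := by
      simp only [Fp]
      rw [if_pos hk']
    rw [this]
    cases u with
    | D l' =>
      simp only [adjR] at hu'
      obtain ⟨rfl, -⟩ := hu'
      simp only [Fp]
      rw [if_pos (Or.inl hk')]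
      linarith
    | X =>
      simp only [adjR] at hu'
      simp only [Fp]
      rw [if_pos (by omega)]
    | cf l' =>
      simp only [adjR] at hu'
      simp only [Fp]
      rw [if_neg (by omega), if_pos (by omega)]
    | _ => simp [adjR] at hu'
  | yb l =>
    simp only [kindR, Kind.player.injEq] at hk'
    unfold up at hk'
    have hl : l.val = m := by
      split_ifs at hk' with h
      · simp [Fin.ext_iff] at hk'
      · simp only [Fin.ext_iff, Fin.val_succ] at hk'
        omega
    have : Fp n m (Vx.yb l) = (1 - del n m) / 8 := by
      simp only [Fp]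
      rw [if_pos hl]
    rw [this]
    cases u with
    | Y l' =>
      simp only [adjR] at hu'
      subst hu'
      simp only [Fp]
      rw [if_pos hl]
      linarith
    | ct l' =>
      simp only [adjR] at hu'
      subst hu'
      simp only [Fp]
      rw [if_neg (by omega), if_pos hl]
    | _ => simp [adjR] at hu'
  | ha l =>
    simp only [kindR, Kind.player.injEq] at hk'
    unfold up at hk'
    have hl : l.val = m := by
      split_ifs at hk' with h
      · simp [Fin.ext_iff] at hk'
      · simp only [Fin.ext_iff, Fin.val_succ] at hk'
        omega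
    have : Fp n m (Vx.ha l) = 1 / 8 := by
      simp only [Fp]
      rw [if_neg (by omega), if_pos hl]
    rw [this]
    cases u with
    | hb l' =>
      simp only [adjR] at hu'
      subst hu'
      simp only [Fp]
      rw [if_neg (by omega), if_pos hl]
      norm_num
    | cf l' =>
      simp only [adjR] at hu'
      simp only [Fp]
      rw [if_pos (by omega)]
    | ct l' =>
      simp only [adjR] at hu'
      simp only [Fp]
      rw [if_pos (by omega)]
    | _ => simp [adjR] at hu'

/-- The bounding function for player `0`. -/
noncomputable def Fz (n : ℕ) : Vx n → ℝ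
  | .init => hval n 0 Vx.init
  | .X => hval n 0 Vx.X
  | .W => 1
  | .cf _ => 1
  | .ct l => if l.val = n then hval n 0 (Vx.ct l) else 1
  | .ya _ => 1
  | .yb _ => 1
  | .ha l => hval n 0 (Vx.ha l)
  | .hb l => hval n 0 (Vx.hb l)
  | .D l => hval n 0 (Vx.D l)
  | .Y _ => 1

theorem Fz_le_one (hn : 1 ≤ n) (v : Vx n) : Fz n v ≤ 1 := by
  cases v with
  | ct l =>
    simp only [Fz]
    split_ifs
    · exact hval_le_one hn _ _
    · exact le_rfl
  | _ => simp only [Fz]; (first | exact hval_le_one hn _ _ | exact le_rfl)

theorem Fz_nonneg (hn : 1 ≤ n) (v : Vx n) : 0 ≤ Fz n v := by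
  cases v with
  | ct l =>
    simp only [Fz]
    split_ifs
    · exact hval_nonneg hn _ _
    · exact zero_le_one
  | _ => simp only [Fz]; (first | exact hval_nonneg hn _ _ | exact zero_le_one)

theorem ne_sg (hn : 1 ≤ n) : (Gm n).IsNE (1 / (4 * ((n : ℝ) + 1))) (sg n) := by
  refine ⟨sg_profile hn, fun i τ hτ hdev => ?_⟩
  rw [(Gm n).payoff_stat]
  show (Gm n).payoff τ i ≤ hval n i Vx.init + _
  have heps : (0 : ℝ) < 1 / (4 * ((n : ℝ) + 1)) := by positivity
  have hchain := (Gm n).isChain (sg_profile hn)
  by_cases hi1 : i.val = n + 1
  · rw [payoff_o hn i hi1]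
    refine le_trans ((Gm n).payoff_le hτ hdev (fun _ => 1) (fun _ => zero_le_one)
      (fun v _ => (Gm n).rew_le_one i v) (fun _ _ _ _ => le_rfl) (fun v hT _ => ?_)) ?_
    · simp only [mul_one]
      exact (hchain.sum v hT).le
    · linarith
  · by_cases hi0 : i.val = 0
    · have hi : i = 0 := Fin.ext hi0
      subst hi
      refine le_trans ((Gm n).payoff_le hτ hdev (Fz n) (Fz_nonneg hn) (fun v hT => ?_)
        (fun v hk u hu => ?_) (fun v hT hk => ?_)) ?_
      · -- rewards
        cases v with
        | W => exact (Gm n).rew_le_one 0 _
        | Y l => exact (Gm n).rew_le_one 0 _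
        | D l => simp only [Fz]; rw [hval_term 0 (T_D l)]
        | init => simp [T_init] at hT
        | X => simp [T_X] at hT
        | cf l => simp [T_cf] at hT
        | ct l => simp [T_ct] at hT
        | ya l => simp [T_ya] at hT
        | yb l => simp [T_yb] at hT
        | ha l => simp [T_ha] at hT
        | hb l => simp [T_hb] at hT
      · -- own vertices
        have hk' : kindR n v = Kind.player 0 := hk
        have hu' : adjR n v u := hu
        cases v with
        | ha l =>
          simp only [kindR, Kind.player.injEq] at hk'
          unfold up at hk'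
          have hl : l.val = n := by
            by_contra h
            rw [if_neg h] at hk'
            exact Fin.succ_ne_zero _ hk'
          cases u with
          | hb l' =>
            simp only [adjR] at hu'
            subst hu'
            simp only [Fz]
            rw [hval_ha hn]
          | cf l' => simp only [adjR] at hu'; have := l'.isLt; omega
          | ct l' => simp only [adjR] at hu'; have := l'.isLt; omega
          | _ => simp [adjR] at hu'
        | hb l =>
          simp only [kindR, Kind.player.injEq, Fin.ext_iff, Fin.val_castSucc] at hk'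
          have hl : l.val = 0 := hk'
          cases u with
          | D l' =>
            simp only [adjR] at hu'
            obtain ⟨rfl, hlt⟩ := hu'
            simp only [Fz]
            rw [hval_hb hn 0 _ (by omega), hval_term 0 (T_D _)]
          | X => simp only [adjR] at hu'; omega
          | cf l' => simp only [adjR] at hu'; omega
          | _ => simp [adjR] at hu'
        | X =>
          simp only [kindR, Kind.player.injEq, Fin.ext_iff, Fin.val_last, Fin.val_zero] at hk'
          omega
        | ct l =>
          simp only [kindR] at hk'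
          split_ifs at hk'
          simp only [Kind.player.injEq, Fin.ext_iff, Fin.val_last, Fin.val_zero] at hk'
          omega
        | init => simp [kindR] at hk'
        | D l => simp [kindR] at hk'
        | W => exact Fz_le_one hn u
        | cf l => exact Fz_le_one hn u
        | ya l => exact Fz_le_one hn u
        | yb l => exact Fz_le_one hn u
        | Y l => exact Fz_le_one hn u
      · -- other vertices
        have hone : ∑ u, (Gm n).P (sg n) v u * Fz n u ≤ 1 := by
          refine le_trans (sum_le_sum fun u _ =>
            mul_le_mul_of_nonneg_left (Fz_le_one hn u) (hchain.nonneg v u)) ?_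
          simp only [mul_one]
          exact (hchain.sum v hT).le
        cases v with
        | init =>
          simp only [P_init]
          have := sum_unif_mul (n := n) (Fz n)
          rw [this]
          show (∑ l : Fin (n + 1), hval n 0 (Vx.ha l)) / ((n : ℝ) + 1) ≤ hval n 0 Vx.init
          rw [hval_init hn]
        | X =>
          rw [P_X, sum_two_mul]
          simp only [Fz, Fin.val_last, if_true]
          rw [hval_X hn, hval_term 0 (T_D _)]
        | ct l =>
          simp only [Fz]
          split_ifs with hl
          · have hll : l = Fin.last n := Fin.ext hl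
            subst hll
            have e1 : (Gm n).rew 0 (Vx.Y (Fin.last n)) = 1 := by
              rw [rew_Y, if_pos (Or.inl hi0), if_pos (Fin.val_last n)]
            rw [P_ct, sum_two_mul]
            simp only [Fin.val_last]
            show del n n * 1 + (1 - del n n) * hval n 0 (Vx.ha (Fin.last n)) ≤ _
            rw [hval_ct hn, e1, hval_ha hn, hval_hb_last hn]
          · exact hone
        | ha l =>
          rw [P_ha, sum_one_mul]
          simp only [Fz]
          rw [hval_ha hn]
        | hb l =>
          rw [P_hb]
          split_ifs with hl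
          · rw [sum_one_mul]
            simp only [Fz]
            have hll : l = Fin.last n := Fin.ext hl
            subst hll
            rw [hval_hb_last hn]
          · rw [sum_one_mul]
            simp only [Fz]
            rw [hval_hb hn 0 _ hl, hval_term 0 (T_D _)]
        | D l => simp [T_D] at hT
        | W => simp [T_W] at hT
        | Y l => simp [T_Y] at hT
        | cf l => exact hone
        | ya l => exact hone
        | yb l => exact hone
      · simp only [Gm, Fz]
        linarith
    · -- players 1, ..., n
      obtain ⟨m, hm⟩ : ∃ m, i.val = m + 1 := ⟨i.val - 1, by omega⟩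
      have hilt := i.isLt
      have hmn : m < n := by omega
      have hlt : m + 1 < n + 2 := by omega
      have hi : i = ⟨m + 1, hlt⟩ := Fin.ext hm
      subst hi
      refine le_trans ((Gm n).payoff_le hτ hdev (Fp n m) (fun v => (Fp_bounds hn hmn v).1)
        (fun v hT => ?_) (fun v hk u hu => Fp_dev hn hmn v hk u hu)
        (fun v hT hk => Fp_super hn hmn v hT hk)) ?_
      · cases v with
        | W => exact (Gm n).rew_le_one _ _
        | Y l =>
          rw [rew_Y]
          simp only [Fp]
          rw [if_neg (by omega)]
          by_cases h : l.val = m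
          · rw [if_pos (by omega), if_pos h]
          · rw [if_neg (by omega), if_neg h]
        | D l =>
          rw [rew_D]
          simp only [Fp]
          rw [if_neg (by omega), if_neg (by omega)]
          by_cases h : l.val = m + 1 ∨ l.val = m
          · rw [if_pos (by omega), if_pos h]
          · rw [if_neg (by omega), if_neg h]
        | init => simp [T_init] at hT
        | X => simp [T_X] at hT
        | cf l => simp [T_cf] at hT
        | ct l => simp [T_ct] at hT
        | ya l => simp [T_ya] at hT
        | yb l => simp [T_yb] at hT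
        | ha l => simp [T_ha] at hT
        | hb l => simp [T_hb] at hT
      · have h1 := payoff_p_lower hn (⟨m + 1, by omega⟩ : Fin (n + 2)) (by simp) (by simp only; omega)
        refine le_trans ?_ (add_le_add_left h1 _)
        show Fp n m Vx.init ≤ _
        simp only [Fp]
        have hs0 : 0 < del n m ^ 2 := by
          have := del_pos (n := n) m
          positivity
        have e : 1 / (4 * ((n : ℝ) + 1)) = (1 / 4) / (n + 1) := by
          rw [div_div]
        rw [e, ← add_div]
        refine div_le_div_of_nonneg_right ?_ (by positivity)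
        linarith

/-- The constraint vectors and `ε`. -/
def xlow (n : ℕ) (i : Fin (n + 2)) : ℚ :=
  if i.val = n + 1 then 1 else if i.val = 0 then 1 / (10 * ((n : ℚ) + 1)) else 0

def yup (n : ℕ) (i : Fin (n + 2)) : ℚ :=
  if i.val = n + 1 then 1 else if i.val = 0 then 1 else 1 - 1 / ((n : ℚ) + 1)

def epsn (n : ℕ) : ℚ := 1 / (4 * ((n : ℚ) + 1))

theorem epsn_pos : 0 < epsn n := by unfold epsn; positivity

theorem cne_sg (hn : 1 ≤ n) : (Gm n).IsCNE (epsn n) (xlow n) (yup n) (sg n) := by
  refine ⟨?_, fun i => ?_⟩
  · have := ne_sg hn
    have e : ((epsn n : ℚ) : ℝ) = 1 / (4 * ((n : ℝ) + 1)) := by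
      unfold epsn
      push_cast
      rfl
    rw [e]
    exact this
  · rw [(Gm n).payoff_stat]
    show (xlow n i : ℝ) ≤ hval n i Vx.init ∧ hval n i Vx.init ≤ yup n i
    unfold xlow yup
    by_cases hi1 : i.val = n + 1
    · rw [if_pos hi1, if_pos hi1, payoff_o hn i hi1]
      simp
    · rw [if_neg hi1, if_neg hi1]
      by_cases hi0 : i.val = 0
      · rw [if_pos hi0, if_pos hi0]
        push_cast
        exact ⟨payoff_z hn i hi0, hval_le_one hn i _⟩
      · rw [if_neg hi0, if_neg hi0]
        push_cast
        have := i.isLt
        exact ⟨hval_nonneg hn i _, payoff_p_upper hn i (by omega) (by omega)⟩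

end Pool.Agent.R645.NE
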