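import Pool.Agent.R645.NE.Inst

set_option autoImplicit false

open Finset Filter Topology

namespace Pool.Agent.R645.NE

variable {n : ℕ}

/-- The probabilities of the intended profile. -/
noncomputable def del (n : ℕ) : ℕ → ℝ
  | 0 => (kap n : ℝ)
  | l + 1 => del n l ^ 2 / 8

theorem kap_real : (kap n : ℝ) = 1 / (4 * ((n : ℝ) + 1)) := by
  unfold kap
  push_cast
  rfl

theorem del_pos (l : ℕ) : 0 < del n l := by
  induction l with
  | zero => rw [del, kap_real]; positivity
  | succ l ih => rw [del]; positivity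

theorem del_le (hn : 1 ≤ n) (l : ℕ) : del n l ≤ 1 / 8 := by
  induction l with
  | zero =>
    rw [del, kap_real]
    have : (1 : ℝ) ≤ n := by exact_mod_cast hn
    apply one_div_le_one_div_of_le <;> linarith
  | succ l ih =>
    rw [del]
    have := del_pos (n := n) l
    nlinarith

/-- The intended profile. -/
noncomputable def sg (n : ℕ) : Vx n → Vx n → ℝ
  | .cf l => two (Vx.ya l) (Vx.ha l) (del n l.val)
  | .ct l => two (Vx.Y l) (Vx.ha l) (del n l.val)
  | .ya l => one (Vx.yb l)
  | .yb l => one (Vx.Y l)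
  | .ha l => one (Vx.hb l)
  | .hb l => if l.val = n then one Vx.X else one (Vx.D l)
  | .X => two (Vx.D (Fin.last n)) (Vx.ct (Fin.last n)) (del n (n - 1) ^ 2)
  | _ => fun _ => 0

theorem sq_le (hn : 1 ≤ n) (l : ℕ) : del n l ^ 2 ≤ 1 / 64 := by
  have h1 := del_pos (n := n) l
  have h2 := del_le hn l
  nlinarith

theorem sg_profile (hn : 1 ≤ n) : (Gm n).IsProfile (Game.stat (sg n)) := by
  intro _ v i hk
  have hk' : kindR n v = Kind.player i := hk
  show (∀ u, 0 ≤ sg n v u) ∧ (∀ u, sg n v u ≠ 0 → adjR n v u) ∧ ∑ u, sg n v u = 1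
  have hd := fun l => del_pos (n := n) l
  have hd1 : ∀ l, del n l ≤ 1 := fun l => (del_le hn l).trans (by norm_num)
  cases v with
  | cf l =>
    refine ⟨two_nonneg _ _ (hd _).le (hd1 _), fun u hu => ?_, sum_two _ _ _⟩
    rcases two_supp hu with rfl | rfl <;> simp [adjR]
  | ct l =>
    refine ⟨two_nonneg _ _ (hd _).le (hd1 _), fun u hu => ?_, sum_two _ _ _⟩
    rcases two_supp hu with rfl | rfl <;> simp [adjR]
  | ya l =>
    refine ⟨one_nonneg _, fun u hu => ?_, sum_one _⟩
    have := one_supp hu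
    subst this
    simp [adjR]
  | yb l =>
    refine ⟨one_nonneg _, fun u hu => ?_, sum_one _⟩
    have := one_supp hu
    subst this
    simp [adjR]
  | ha l =>
    refine ⟨one_nonneg _, fun u hu => ?_, sum_one _⟩
    have := one_supp hu
    subst this
    simp [adjR]
  | hb l =>
    simp only [sg]
    split_ifs with h
    · refine ⟨one_nonneg _, fun u hu => ?_, sum_one _⟩
      have := one_supp hu
      subst this
      simp [adjR, h]
    · refine ⟨one_nonneg _, fun u hu => ?_, sum_one _⟩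
      have := one_supp hu
      subst this
      have hl := l.isLt
      simp only [adjR]
      exact ⟨trivial, by omega⟩
  | X =>
    refine ⟨two_nonneg _ _ (by positivity) ((sq_le hn _).trans (by norm_num)), fun u hu => ?_,
      sum_two _ _ _⟩
    rcases two_supp hu with rfl | rfl <;> simp [adjR]
  | init => simp [kindR] at hk'
  | W => simp [kindR] at hk'
  | D l => simp [kindR] at hk'
  | Y l => simp [kindR] at hk'

/-- Rows of the transition matrix. -/
theorem P_init (σ : Vx n → Vx n → ℝ) (u : Vx n) : (Gm n).P σ Vx.init u = (unif n u : ℝ) := rfl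

theorem P_cf (l : Fin (n + 1)) : (Gm n).P (sg n) (Vx.cf l) = two (Vx.ya l) (Vx.ha l) (del n l) := by
  funext u
  show (kindR n (Vx.cf l)).row (sg n (Vx.cf l)) u = _
  simp only [kindR]
  split_ifs with h
  · subst h
    simp only [Kind.row, two_cast]
    rfl
  · rfl

theorem P_ct (l : Fin (n + 1)) : (Gm n).P (sg n) (Vx.ct l) = two (Vx.Y l) (Vx.ha l) (del n l) := by
  funext u
  show (kindR n (Vx.ct l)).row (sg n (Vx.ct l)) u = _
  simp only [kindR]
  split_ifs with h
  · subst h
    simp only [Kind.row, two_cast]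
    rfl
  · rfl

theorem P_ya (l : Fin (n + 1)) : (Gm n).P (sg n) (Vx.ya l) = one (Vx.yb l) := rfl
theorem P_yb (l : Fin (n + 1)) : (Gm n).P (sg n) (Vx.yb l) = one (Vx.Y l) := rfl
theorem P_ha (l : Fin (n + 1)) : (Gm n).P (sg n) (Vx.ha l) = one (Vx.hb l) := rfl
theorem P_hb (l : Fin (n + 1)) : (Gm n).P (sg n) (Vx.hb l) =
    if l.val = n then one Vx.X else one (Vx.D l) := rfl
theorem P_X : (Gm n).P (sg n) Vx.X =
    two (Vx.D (Fin.last n)) (Vx.ct (Fin.last n)) (del n (n - 1) ^ 2) := rfl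

theorem T_init : (Gm n).T Vx.init = false := rfl
theorem T_X : (Gm n).T Vx.X = false := rfl
theorem T_W : (Gm n).T Vx.W = true := rfl
theorem T_ya (l : Fin (n + 1)) : (Gm n).T (Vx.ya l) = false := rfl
theorem T_yb (l : Fin (n + 1)) : (Gm n).T (Vx.yb l) = false := rfl
theorem T_ha (l : Fin (n + 1)) : (Gm n).T (Vx.ha l) = false := rfl
theorem T_hb (l : Fin (n + 1)) : (Gm n).T (Vx.hb l) = false := rfl
theorem T_D (l : Fin (n + 1)) : (Gm n).T (Vx.D l) = true := rfl
theorem T_Y (l : Fin (n + 1)) : (Gm n).T (Vx.Y l) = true := rfl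
theorem T_cf (l : Fin (n + 1)) : (Gm n).T (Vx.cf l) = false := by
  show (kindR n (Vx.cf l)).isTerm = false
  simp only [kindR]
  split_ifs <;> rfl
theorem T_ct (l : Fin (n + 1)) : (Gm n).T (Vx.ct l) = false := by
  show (kindR n (Vx.ct l)).isTerm = false
  simp only [kindR]
  split_ifs <;> rfl

theorem rew_W (i : Fin (n + 2)) : (Gm n).rew i Vx.W = if i.val = 0 ∨ i.val = n + 1 then 0 else 1 := by
  show (((if i.val = 0 ∨ i.val = n + 1 then 0 else 1 : ℚ)) : ℝ) = _
  split_ifs <;> simp

theorem rew_D (i : Fin (n + 2)) (l : Fin (n + 1)) : (Gm n).rew i (Vx.D l) =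
    if i.val = n + 1 then 1 else if i.val = 0 then 0 else
      if i.val = l.val ∨ i.val = l.val + 1 then 0 else 1 := by
  show (((if i.val = n + 1 then 1 else if i.val = 0 then 0 else
      if i.val = l.val ∨ i.val = l.val + 1 then 0 else 1 : ℚ)) : ℝ) = _
  split_ifs <;> simp

theorem rew_Y (i : Fin (n + 2)) (l : Fin (n + 1)) : (Gm n).rew i (Vx.Y l) =
    if i.val = 0 ∨ i.val = n + 1 then (if l.val = n then 1 else 0) else
      if i.val = l.val + 1 then 0 else 1 := by
  show (((if i.val = 0 ∨ i.val = n + 1 then (if l.val = n then 1 else 0) else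
      if i.val = l.val + 1 then 0 else 1 : ℚ)) : ℝ) = _
  split_ifs <;> simp

section values
variable (hn : 1 ≤ n) (i : Fin (n + 2))
include hn

/-- The value of a vertex in the intended profile. -/
noncomputable def hval (n : ℕ) (i : Fin (n + 2)) (v : Vx n) : ℝ :=
  H ((Gm n).P (sg n)) (Gm n).T ((Gm n).rew i) v

theorem hval_harm {v : Vx n} (hv : (Gm n).T v = false) :
    hval n i v = ∑ u, (Gm n).P (sg n) v u * hval n i u :=
  H_harm ((Gm n).isChain (sg_profile hn)) ((Gm n).rew_nonneg i) ((Gm n).rew_le_one i) hv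

theorem hval_nonneg (v : Vx n) : 0 ≤ hval n i v :=
  H_nonneg ((Gm n).isChain (sg_profile hn)) ((Gm n).rew_nonneg i) ((Gm n).rew_le_one i) v

theorem hval_le_one (v : Vx n) : hval n i v ≤ 1 :=
  H_le_one ((Gm n).isChain (sg_profile hn)) ((Gm n).rew_nonneg i) ((Gm n).rew_le_one i) v

omit hn in
theorem hval_term {v : Vx n} (hv : (Gm n).T v = true) : hval n i v = (Gm n).rew i v :=
  H_term hv

theorem hval_init : hval n i Vx.init = (∑ l : Fin (n + 1), hval n i (Vx.ha l)) / (n + 1) := by
  rw [hval_harm hn i T_init]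
  exact sum_unif_mul _

theorem hval_ha (l : Fin (n + 1)) : hval n i (Vx.ha l) = hval n i (Vx.hb l) := by
  rw [hval_harm hn i (T_ha l), P_ha, sum_one_mul]

theorem hval_hb (l : Fin (n + 1)) (hl : l.val ≠ n) :
    hval n i (Vx.hb l) = (Gm n).rew i (Vx.D l) := by
  rw [hval_harm hn i (T_hb l), P_hb, if_neg hl, sum_one_mul, hval_term i (T_D l)]

theorem hval_hb_last : hval n i (Vx.hb (Fin.last n)) = hval n i Vx.X := by
  rw [hval_harm hn i (T_hb _), P_hb, if_pos (Fin.val_last n), sum_one_mul]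

theorem hval_X : hval n i Vx.X = del n (n - 1) ^ 2 * (Gm n).rew i (Vx.D (Fin.last n)) +
    (1 - del n (n - 1) ^ 2) * hval n i (Vx.ct (Fin.last n)) := by
  rw [hval_harm hn i T_X, P_X, sum_two_mul, hval_term i (T_D _)]

theorem hval_ct : hval n i (Vx.ct (Fin.last n)) = del n n * (Gm n).rew i (Vx.Y (Fin.last n)) +
    (1 - del n n) * hval n i Vx.X := by
  rw [hval_harm hn i (T_ct _), P_ct, sum_two_mul, hval_term i (T_Y _), hval_ha hn, hval_hb_last hn,
    Fin.val_last]

theorem del_last : del n n = del n (n - 1) ^ 2 / 8 := by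
  obtain ⟨m, rfl⟩ : ∃ m, n = m + 1 := ⟨n - 1, by omega⟩
  rfl

/-- If both exits of the top loop are worth `1`, so is the loop. -/
theorem hval_X_one (h1 : (Gm n).rew i (Vx.D (Fin.last n)) = 1)
    (h2 : (Gm n).rew i (Vx.Y (Fin.last n)) = 1) : hval n i Vx.X = 1 := by
  have e1 := hval_X hn i
  have e2 := hval_ct hn i
  rw [h1] at e1
  rw [h2] at e2
  have e3 := del_last hn
  have h3 := sq_le hn (n - 1)
  have h4 := del_pos (n := n) (n - 1)
  obtain ⟨a, ha⟩ : ∃ a, a = del n (n - 1) ^ 2 := ⟨_, rfl⟩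
  rw [← ha] at e1 e3 h3
  have ha0 : 0 < a := by rw [ha]; positivity
  rw [e2, e3] at e1
  have h5 : (1 - hval n i Vx.X) * (1 - (1 - a) * (1 - a / 8)) = 0 := by linarith
  rcases mul_eq_zero.mp h5 with h6 | h6
  · linarith
  · nlinarith

theorem payoff_z (hi : i.val = 0) : 1 / (10 * ((n : ℝ) + 1)) ≤ hval n i Vx.init := by
  have e1 := hval_X hn i
  have e2 := hval_ct hn i
  have r1 : (Gm n).rew i (Vx.Y (Fin.last n)) = 1 := by
    rw [rew_Y, if_pos (Or.inl hi), if_pos (Fin.val_last n)]
  have r2 : (Gm n).rew i (Vx.D (Fin.last n)) = 0 := by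
    rw [rew_D, if_neg (by omega), if_pos hi]
  rw [r1] at e2
  rw [r2] at e1
  have e3 := del_last hn
  have h3 := sq_le hn (n - 1)
  have h4 := del_pos (n := n) (n - 1)
  obtain ⟨a, ha⟩ : ∃ a, a = del n (n - 1) ^ 2 := ⟨_, rfl⟩
  rw [← ha] at e1 e3 h3
  have ha0 : 0 < a := by rw [ha]; positivity
  rw [e2, e3] at e1
  have h5 : (1 : ℝ) / 10 ≤ hval n i Vx.X := by
    have h6 : a * ((1 - a) / 8 - hval n i Vx.X * (9 / 8 - a / 8)) = 0 := by linarith
    rcases mul_eq_zero.mp h6 with h7 | h7
    · linarith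
    · by_contra hc
      push Not at hc
      nlinarith
  rw [hval_init hn]
  rw [le_div_iff₀ (by positivity)]
  have h6 : hval n i (Vx.ha (Fin.last n)) ≤ ∑ l : Fin (n + 1), hval n i (Vx.ha l) :=
    single_le_sum (f := fun l => hval n i (Vx.ha l)) (fun l _ => hval_nonneg hn i _) (mem_univ _)
  rw [hval_ha hn, hval_hb_last hn] at h6
  have h7 : 1 / (10 * ((n : ℝ) + 1)) * (n + 1) = 1 / 10 := by
    field_simp
  rw [h7]
  linarith

theorem payoff_o (hi : i.val = n + 1) : hval n i Vx.init = 1 := by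
  have h1 : ∀ l : Fin (n + 1), hval n i (Vx.ha l) = 1 := by
    intro l
    rw [hval_ha hn]
    by_cases hl : l.val = n
    · have : l = Fin.last n := Fin.ext hl
      rw [this, hval_hb_last hn]
      refine hval_X_one hn i ?_ ?_
      · rw [rew_D, if_pos hi]
      · rw [rew_Y, if_pos (Or.inr hi), if_pos (Fin.val_last n)]
    · rw [hval_hb hn i l hl, rew_D, if_pos hi]
  rw [hval_init hn, sum_congr rfl fun l _ => h1 l]
  simp only [sum_const, card_univ, Fintype.card_fin, nsmul_eq_mul, mul_one]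
  push_cast
  exact div_self (by positivity)

theorem payoff_p_upper (h1 : 1 ≤ i.val) (h2 : i.val ≤ n) :
    hval n i Vx.init ≤ 1 - 1 / ((n : ℝ) + 1) := by
  rw [hval_init hn, div_le_iff₀ (by positivity)]
  have e : (1 - 1 / ((n : ℝ) + 1)) * (n + 1) = n := by field_simp; ring
  rw [e]
  let m : Fin (n + 1) := ⟨i.val - 1, by omega⟩
  have hm : m.val = i.val - 1 := rfl
  have h3 : hval n i (Vx.ha m) = 0 := by
    rw [hval_ha hn, hval_hb hn i m (by omega), rew_D, if_neg (by omega), if_neg (by omega),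
      if_pos (Or.inr (by omega))]
  rw [← add_sum_erase univ _ (mem_univ m), h3, zero_add]
  refine (sum_le_sum fun l _ => hval_le_one hn i _).trans ?_
  simp

theorem payoff_p_lower (h1 : 1 ≤ i.val) (h2 : i.val ≤ n) :
    ((n : ℝ) - 1) / (n + 1) ≤ hval n i Vx.init := by
  rw [hval_init hn]
  refine div_le_div_of_nonneg_right ?_ (by positivity)
  let m : Fin (n + 1) := ⟨i.val - 1, by omega⟩
  let m' : Fin (n + 1) := ⟨i.val, by omega⟩
  have hm : m.val = i.val - 1 := rfl
  have hm' : m'.val = i.val := rfl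
  have hmm : m ≠ m' := fun h => by
    have := congrArg Fin.val h
    omega
  have h3 : ∀ l ∈ (univ.erase m).erase m', (1 : ℝ) ≤ hval n i (Vx.ha l) := by
    intro l hl
    rw [mem_erase, mem_erase] at hl
    have hl1 : l.val ≠ i.val := fun h => hl.1 (Fin.ext h)
    have hl2 : l.val ≠ i.val - 1 := fun h => hl.2.1 (Fin.ext h)
    rw [hval_ha hn]
    by_cases hln : l.val = n
    · have : l = Fin.last n := Fin.ext hln
      rw [this, hval_hb_last hn, hval_X_one hn i]
      · rw [rew_D, if_neg (by omega), if_neg (by omega), if_neg]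
        rw [Fin.val_last]
        omega
      · rw [rew_Y, if_neg (by omega), if_neg]
        rw [Fin.val_last]
        omega
    · rw [hval_hb hn i l hln, rew_D, if_neg (by omega), if_neg (by omega), if_neg (by omega)]
  have h4 : ∑ l ∈ (univ.erase m).erase m', (1 : ℝ) ≤
      ∑ l ∈ (univ.erase m).erase m', hval n i (Vx.ha l) := sum_le_sum h3
  have h5 : ∑ l ∈ (univ.erase m).erase m', hval n i (Vx.ha l) ≤
      ∑ l : Fin (n + 1), hval n i (Vx.ha l) :=
    sum_le_sum_of_subset_of_nonneg (subset_univ _) fun l _ _ => hval_nonneg hn i _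
  have h6 : ((univ.erase m).erase m').card = n - 1 := by
    rw [card_erase_of_mem, card_erase_of_mem (mem_univ _), card_univ, Fintype.card_fin]
    · omega
    · exact mem_erase.mpr ⟨hmm.symm, mem_univ _⟩
  rw [sum_const, h6, nsmul_eq_mul, mul_one] at h4
  have h7 : ((n - 1 : ℕ) : ℝ) = (n : ℝ) - 1 := by
    push_cast [Nat.cast_sub hn]
    ring
  linarith

end values

end Pool.Agent.R645.NE
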