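import Pool.Agent.R645.NE.Equil

set_option autoImplicit false

open Finset Filter Topology

namespace Pool.Agent.R645.NE

variable {n : ℕ}

theorem sum_pair {V : Type} [Fintype V] [DecidableEq V] {p : V → ℝ} {a b : V} (g : V → ℝ)
    (hs : ∀ u, p u ≠ 0 → u = a ∨ u = b) (hab : a ≠ b) :
    ∑ u, p u * g u = p a * g a + p b * g b := by
  rw [← sum_pair_aux hab (fun u => p u * g u)]
  refine (sum_subset (subset_univ _) fun u _ hu => ?_).symm
  by_contra hc
  have h1 : p u ≠ 0 := fun h => hc (by rw [h, zero_mul])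
  rcases hs u h1 with rfl | rfl <;> simp at hu
where
  sum_pair_aux {V : Type} [DecidableEq V] {a b : V} (hab : a ≠ b) (f : V → ℝ) :
      ∑ u ∈ {a, b}, f u = f a + f b := Finset.sum_pair hab

theorem avg_le {V : Type} [Fintype V] {p g : V → ℝ} {B : ℝ} (hp : ∀ u, 0 ≤ p u)
    (hs : ∑ u, p u = 1) (h : ∀ u, p u ≠ 0 → g u ≤ B) : ∑ u, p u * g u ≤ B := by
  calc ∑ u, p u * g u ≤ ∑ u, p u * B := by
        refine sum_le_sum fun u _ => ?_
        by_cases hu : p u = 0
        · rw [hu]; simp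
        · exact mul_le_mul_of_nonneg_left (h u hu) (hp u)
    _ = B := by rw [← sum_mul, hs, one_mul]

/-- The level of a vertex. -/
def lev : Vx n → ℕ
  | .init => n
  | .X => n
  | .W => n
  | .cf l => l.val
  | .ct l => l.val
  | .ya l => l.val
  | .yb l => l.val
  | .ha l => l.val
  | .hb l => l.val
  | .D l => l.val
  | .Y l => l.val

section forced

variable {σ : Vx n → Vx n → ℝ}

/-- Vertices from which player `n + 1` gets payoff one. -/
def RR (σ : Vx n → Vx n → ℝ) (v : Vx n) : Prop :=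
  H ((Gm n).P σ) (Gm n).T ((Gm n).rew (Fin.last (n + 1))) v = 1

/-- The probability of `yes` at `ct l`. -/
noncomputable def dt (σ : Vx n → Vx n → ℝ) (l : Fin (n + 1)) : ℝ :=
  (Gm n).P σ (Vx.ct l) (Vx.Y l)

/-- The probability of `yes` at `cf l`. -/
noncomputable def df (σ : Vx n → Vx n → ℝ) (l : Fin (n + 1)) : ℝ :=
  (Gm n).P σ (Vx.cf l) (Vx.ya l)

theorem adj_cf {l : Fin (n + 1)} {u : Vx n} (h : (Gm n).adj (Vx.cf l) u) :
    u = Vx.ya l ∨ u = Vx.ha l := by
  have h' : adjR n (Vx.cf l) u := h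
  cases u <;> simp_all [adjR]

theorem adj_ct {l : Fin (n + 1)} {u : Vx n} (h : (Gm n).adj (Vx.ct l) u) :
    u = Vx.Y l ∨ u = Vx.ha l := by
  have h' : adjR n (Vx.ct l) u := h
  cases u <;> simp_all [adjR]

theorem adj_ya {l : Fin (n + 1)} {u : Vx n} (h : (Gm n).adj (Vx.ya l) u) :
    u = Vx.W ∨ u = Vx.yb l := by
  have h' : adjR n (Vx.ya l) u := h
  cases u <;> simp_all [adjR]

theorem adj_yb {l : Fin (n + 1)} {u : Vx n} (h : (Gm n).adj (Vx.yb l) u) :
    u = Vx.Y l ∨ u = Vx.ct l := by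
  have h' : adjR n (Vx.yb l) u := h
  cases u <;> simp_all [adjR]

theorem adj_ha {l : Fin (n + 1)} {u : Vx n} (h : (Gm n).adj (Vx.ha l) u) :
    u = Vx.hb l ∨ (∃ l', u = Vx.cf l' ∧ l'.val = l.val + 1 ∧ l'.val < n) ∨
      (∃ l', u = Vx.ct l' ∧ l'.val = l.val + 1) := by
  have h' : adjR n (Vx.ha l) u := h
  cases u with
  | hb l' => simp only [adjR] at h'; subst h'; exact Or.inl rfl
  | cf l' => exact Or.inr (Or.inl ⟨l', rfl, h'⟩)
  | ct l' => exact Or.inr (Or.inr ⟨l', rfl, h'⟩)
  | _ => simp [adjR] at h'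

theorem adj_hb {l : Fin (n + 1)} {u : Vx n} (h : (Gm n).adj (Vx.hb l) u) :
    (u = Vx.D l ∧ l.val < n) ∨ (u = Vx.X ∧ l.val = n) ∨
      (∃ l', u = Vx.cf l' ∧ l.val = l'.val + 1) := by
  have h' : adjR n (Vx.hb l) u := h
  cases u <;> simp_all [adjR]

theorem adj_X {u : Vx n} (h : (Gm n).adj Vx.X u) :
    (∃ l', u = Vx.D l' ∧ l'.val = n) ∨ (∃ l', u = Vx.ct l' ∧ l'.val = n) := by
  have h' : adjR n Vx.X u := h
  cases u <;> simp_all [adjR]

theorem adj_init {u : Vx n} (h : (Gm n).adj Vx.init u) : ∃ l, u = Vx.ha l := by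
  have h' : adjR n Vx.init u := h
  cases u <;> simp_all [adjR]

variable (hp : (Gm n).IsProfile (Game.stat σ))
include hp

theorem RR_closed {v u : Vx n} (h : RR σ v) (hT : (Gm n).T v = false)
    (hu : (Gm n).P σ v u ≠ 0) : RR σ u :=
  one_closed ((Gm n).isChain hp) ((Gm n).rew_nonneg _) ((Gm n).rew_le_one _) h hT hu

omit hp in
theorem not_RR_Y {l : Fin (n + 1)} (hl : l.val < n) : ¬ RR σ (Vx.Y l) := by
  intro h
  unfold RR at h
  rw [H_term (T_Y l), rew_Y, if_pos (Or.inr (Fin.val_last _)), if_neg (by omega)] at h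
  exact zero_ne_one h

theorem RR_ha (h0 : RR σ Vx.init) (l : Fin (n + 1)) : RR σ (Vx.ha l) := by
  refine RR_closed hp h0 T_init ?_
  rw [P_init]
  have : unif n (Vx.ha l) = 1 / ((n : ℚ) + 1) := by
    unfold unif
    simp
  rw [this]
  push_cast
  positivity

theorem dt_nonneg (l : Fin (n + 1)) : 0 ≤ dt σ l := ((Gm n).isChain hp).nonneg _ _
theorem df_nonneg (l : Fin (n + 1)) : 0 ≤ df σ l := ((Gm n).isChain hp).nonneg _ _

theorem row_ct (l : Fin (n + 1)) (g : Vx n → ℝ) :
    ∑ u, (Gm n).P σ (Vx.ct l) u * g u = dt σ l * g (Vx.Y l) + (1 - dt σ l) * g (Vx.ha l) := by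
  have hs : ∀ u, (Gm n).P σ (Vx.ct l) u ≠ 0 → u = Vx.Y l ∨ u = Vx.ha l :=
    fun u hu => adj_ct ((Gm n).P_adj hp hu)
  have h1 := sum_pair (p := (Gm n).P σ (Vx.ct l)) (fun _ => 1) hs (by simp)
  have h2 := ((Gm n).isChain hp).sum _ (T_ct l)
  simp only [mul_one] at h1
  rw [h2] at h1
  rw [sum_pair g hs (by simp)]
  unfold dt
  congr 2
  linarith

theorem row_cf (l : Fin (n + 1)) (g : Vx n → ℝ) :
    ∑ u, (Gm n).P σ (Vx.cf l) u * g u = df σ l * g (Vx.ya l) + (1 - df σ l) * g (Vx.ha l) := by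
  have hs : ∀ u, (Gm n).P σ (Vx.cf l) u ≠ 0 → u = Vx.ya l ∨ u = Vx.ha l :=
    fun u hu => adj_cf ((Gm n).P_adj hp hu)
  have h1 := sum_pair (p := (Gm n).P σ (Vx.cf l)) (fun _ => 1) hs (by simp)
  have h2 := ((Gm n).isChain hp).sum _ (T_cf l)
  simp only [mul_one] at h1
  rw [h2] at h1
  rw [sum_pair g hs (by simp)]
  unfold df
  congr 2
  linarith

theorem dt_le_one (l : Fin (n + 1)) : dt σ l ≤ 1 := by
  have := row_ct hp l (fun u => if u = Vx.ha l then 1 else 0)
  simp at this
  have h := ((Gm n).isChain hp).nonneg (Vx.ct l) (Vx.ha l)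
  linarith

theorem df_le_one (l : Fin (n + 1)) : df σ l ≤ 1 := by
  have := row_cf hp l (fun u => if u = Vx.ha l then 1 else 0)
  simp at this
  have h := ((Gm n).isChain hp).nonneg (Vx.cf l) (Vx.ha l)
  linarith

/-- Player `0` forces the top check to say yes with positive probability. -/
theorem dt_top (hz : 0 < (Gm n).payoff (Game.stat σ) 0) : 0 < dt σ (Fin.last n) := by
  by_contra hc
  have h0 : dt σ (Fin.last n) = 0 := le_antisymm (not_lt.mp hc) (dt_nonneg hp _)
  have e0 : ((0 : Fin (n + 2)).val) = 0 := rfl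
  rw [(Gm n).payoff_stat] at hz
  have : H ((Gm n).P σ) (Gm n).T ((Gm n).rew 0) (Gm n).init ≤ (fun _ => (0 : ℝ)) (Gm n).init := by
    refine H_le ((Gm n).isChain hp) ((Gm n).rew_nonneg _) ((Gm n).rew_le_one _)
      {v | v ≠ Vx.cf (Fin.last n) ∧ v ≠ Vx.ya (Fin.last n) ∧ v ≠ Vx.yb (Fin.last n) ∧
        v ≠ Vx.Y (Fin.last n)} (fun _ => 0) (fun _ _ _ => le_rfl) ?_ ?_
      (fun _ _ _ => by simp) ?_
    · intro v hv hT
      cases v with
      | W => rw [rew_W, if_pos (Or.inl e0)]
      | D l => rw [rew_D, if_neg (by omega), if_pos e0]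
      | Y l =>
        have hl : l.val ≠ n := fun h => hv.2.2.2 (by rw [Fin.ext (h.trans (Fin.val_last n).symm)])
        rw [rew_Y, if_pos (Or.inl e0), if_neg hl]
      | init => simp [T_init] at hT
      | X => simp [T_X] at hT
      | cf l => simp [T_cf] at hT
      | ct l => simp [T_ct] at hT
      | ya l => simp [T_ya] at hT
      | yb l => simp [T_yb] at hT
      | ha l => simp [T_ha] at hT
      | hb l => simp [T_hb] at hT
    · intro v hv hT u hu
      have ha := (Gm n).P_adj hp hu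
      obtain ⟨h1, h2, h3, h4⟩ := hv
      cases v with
      | init => obtain ⟨l, rfl⟩ := adj_init ha; simp
      | X => rcases adj_X ha with ⟨l, rfl, -⟩ | ⟨l, rfl, -⟩ <;> simp
      | cf l =>
        rcases adj_cf ha with rfl | rfl
        · simp only [ne_eq, Vx.cf.injEq] at h1
          simp [h1]
        · simp
      | ct l =>
        rcases adj_ct ha with rfl | rfl
        · by_cases hl : l = Fin.last n
          · subst hl
            exact absurd h0 hu
          · simp [hl]
        · simp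
      | ya l =>
        rcases adj_ya ha with rfl | rfl
        · simp
        · simp only [ne_eq, Vx.ya.injEq] at h2
          simp [h2]
      | yb l =>
        rcases adj_yb ha with rfl | rfl
        · simp only [ne_eq, Vx.yb.injEq] at h3
          simp [h3]
        · simp
      | ha l =>
        rcases adj_ha ha with rfl | ⟨l', rfl, -, h5⟩ | ⟨l', rfl, -⟩
        · simp
        · have : l' ≠ Fin.last n := fun h => by
            rw [h, Fin.val_last] at h5
            exact lt_irrefl _ h5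
          simp [this]
        · simp
      | hb l =>
        rcases adj_hb ha with ⟨rfl, -⟩ | ⟨rfl, -⟩ | ⟨l', rfl, h5⟩
        · simp
        · simp
        · have : l' ≠ Fin.last n := fun h => by
            rw [h, Fin.val_last] at h5
            have := l.isLt
            omega
          simp [this]
      | W => simp [T_W] at hT
      | D l => simp [T_D] at hT
      | Y l => simp [T_Y] at hT
    · show (Gm n).init ∈ _
      simp [Gm]
  exact absurd hz (not_lt.mpr this)

end forced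

end Pool.Agent.R645.NE
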