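import Pool.Agent.R645.NE.Chain

set_option autoImplicit false

open Finset Filter Topology

namespace Pool.Agent.R645.NE

/-- The kinds of vertices: owned by a player, stochastic with a rational distribution on the
successors, or terminal with a rational reward for every player. -/
inductive Kind (Pl V : Type) where
  | player (i : Pl) : Kind Pl V
  | stoch (p : V → ℚ) : Kind Pl V
  | term (r : Pl → ℚ) : Kind Pl V

/-- Turn-based stochastic games with terminal rewards on a finite directed graph. -/
structure Game (Pl V : Type) [Fintype V] where
  adj : V → V → Prop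
  kind : V → Kind Pl V
  init : V
  player_succ : ∀ v i, kind v = Kind.player i → ∃ u, adj v u
  stoch_nonneg : ∀ v p, kind v = Kind.stoch p → ∀ u, 0 ≤ p u
  stoch_supp : ∀ v p, kind v = Kind.stoch p → ∀ u, p u ≠ 0 → adj v u
  stoch_sum : ∀ v p, kind v = Kind.stoch p → ∑ u, p u = 1
  term_adj : ∀ v r, kind v = Kind.term r → ∀ u, ¬ adj v u
  term_reward : ∀ v r, kind v = Kind.term r → ∀ i, 0 ≤ r i ∧ r i ≤ 1

namespace Kind

variable {Pl V : Type}

/-- Is the vertex terminal? -/
def isTerm : Kind Pl V → Bool
  | term _ => true
  | _ => false

/-- The reward of player `i` at the vertex (`0` if not terminal). -/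
def reward (i : Pl) : Kind Pl V → ℝ
  | term r => r i
  | _ => 0

/-- The distribution of the next vertex if the owner (if any) uses the distribution `q`. -/
def row (q : V → ℝ) : Kind Pl V → V → ℝ
  | player _ => q
  | stoch p => fun u => p u
  | term _ => fun _ => 0

end Kind

namespace Game

variable {Pl V : Type} [Fintype V] (G : Game Pl V)

/-- A profile of (history dependent, randomised) strategies: `τ past v u` is the probability of
moving from the player vertex `v` to `u` if the vertices in the list `past` were visited before
(most recent first). -/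
def IsProfile (τ : List V → V → V → ℝ) : Prop :=
  ∀ past v i, G.kind v = Kind.player i →
    (∀ u, 0 ≤ τ past v u) ∧ (∀ u, τ past v u ≠ 0 → G.adj v u) ∧ ∑ u, τ past v u = 1

/-- Expected reward of player `i` collected within `t` steps from `v`. -/
noncomputable def val (τ : List V → V → V → ℝ) (i : Pl) : ℕ → List V → V → ℝ
  | 0, _, v => if (G.kind v).isTerm then (G.kind v).reward i else 0
  | t + 1, past, v => if (G.kind v).isTerm then (G.kind v).reward i else
      ∑ u, (G.kind v).row (τ past v) u * val τ i t (v :: past) u

/-- Expected payoff of player `i`. -/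
noncomputable def payoff (τ : List V → V → V → ℝ) (i : Pl) : ℝ := ⨆ t, G.val τ i t [] G.init

/-- The stationary profile given by `σ`. -/
def stat (σ : V → V → ℝ) : List V → V → V → ℝ := fun _ v => σ v

/-- `σ` is a stationary `ε`-Nash equilibrium: no player gains more than `ε` by a unilateral
(possibly history dependent) deviation. -/
def IsNE (ε : ℝ) (σ : V → V → ℝ) : Prop :=
  G.IsProfile (stat σ) ∧
    ∀ (i : Pl) (τ : List V → V → V → ℝ), G.IsProfile τ →
      (∀ past v, G.kind v ≠ Kind.player i → τ past v = σ v) →
        G.payoff τ i ≤ G.payoff (stat σ) i + ε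

/-- `σ` is a stationary `ε`-Nash equilibrium whose payoff vector lies between `x` and `y`. -/
def IsCNE (ε : ℝ) (x y : Pl → ℚ) (σ : V → V → ℝ) : Prop :=
  G.IsNE ε σ ∧ ∀ i, (x i : ℝ) ≤ G.payoff (stat σ) i ∧ G.payoff (stat σ) i ≤ y i

/-- Every probability used by `σ` is an integer multiple of `2 ^ (-L)`. -/
def FixedPoint (σ : V → V → ℝ) (L : ℕ) : Prop :=
  ∀ v i, G.kind v = Kind.player i → ∀ u, ∃ a : ℕ, σ v u = a / 2 ^ L

/-! ### The chain of a stationary profile -/

/-- Terminal vertices. -/
def T (v : V) : Bool := (G.kind v).isTerm

/-- Rewards. -/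
def rew (i : Pl) (v : V) : ℝ := (G.kind v).reward i

/-- Transition matrix. -/
def P (σ : V → V → ℝ) (v u : V) : ℝ := (G.kind v).row (σ v) u

theorem val_stat (σ : V → V → ℝ) (i : Pl) (t : ℕ) (past : List V) (v : V) :
    G.val (stat σ) i t past v = hv (G.P σ) G.T (G.rew i) t v := by
  induction t generalizing past v with
  | zero => rfl
  | succ t ih =>
    show (if (G.kind v).isTerm then (G.kind v).reward i else
      ∑ u, (G.kind v).row (stat σ past v) u * G.val (stat σ) i t (v :: past) u) =
      (if (G.kind v).isTerm then (G.kind v).reward i else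
      ∑ u, (G.kind v).row (σ v) u * hv (G.P σ) G.T (G.rew i) t u)
    congr 1
    refine sum_congr rfl fun u _ => ?_
    rw [ih]
    rfl

theorem payoff_stat (σ : V → V → ℝ) (i : Pl) :
    G.payoff (stat σ) i = H (G.P σ) G.T (G.rew i) G.init := by
  unfold payoff H
  congr 1
  funext t
  exact G.val_stat σ i t [] G.init

theorem isChain {σ : V → V → ℝ} (h : G.IsProfile (stat σ)) : IsChain (G.P σ) G.T := by
  constructor
  · intro v u
    unfold P
    cases hk : G.kind v with
    | player i => exact (h [] v i hk).1 u
    | stoch p =>
      simp only [Kind.row]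
      exact_mod_cast G.stoch_nonneg v p hk u
    | term r => exact le_rfl
  · intro v hT
    unfold P
    cases hk : G.kind v with
    | player i => exact (h [] v i hk).2.2
    | stoch p =>
      have := G.stoch_sum v p hk
      simp only [Kind.row]
      exact_mod_cast this
    | term r =>
      unfold T at hT
      rw [hk] at hT
      simp [Kind.isTerm] at hT

theorem rew_nonneg (i : Pl) (v : V) : 0 ≤ G.rew i v := by
  unfold rew
  cases hk : G.kind v with
  | player i => exact le_rfl
  | stoch p => exact le_rfl
  | term r =>
    simp only [Kind.reward]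
    exact_mod_cast (G.term_reward v r hk i).1

theorem rew_le_one (i : Pl) (v : V) : G.rew i v ≤ 1 := by
  unfold rew
  cases hk : G.kind v with
  | player i => exact zero_le_one
  | stoch p => exact zero_le_one
  | term r =>
    simp only [Kind.reward]
    exact_mod_cast (G.term_reward v r hk i).2

theorem P_adj {σ : V → V → ℝ} (h : G.IsProfile (stat σ)) {v u : V} (hu : G.P σ v u ≠ 0) :
    G.adj v u := by
  unfold P at hu
  cases hk : G.kind v with
  | player i => rw [hk] at hu; exact (h [] v i hk).2.1 u hu
  | stoch p =>
    rw [hk] at hu
    refine G.stoch_supp v p hk u fun h0 => hu ?_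
    simp [Kind.row, h0]
  | term r => rw [hk] at hu; exact absurd rfl hu

/-- Upper bound for all deviations of player `i`. -/
theorem payoff_le {σ : V → V → ℝ} {i : Pl} {τ : List V → V → V → ℝ}
    (hτ : G.IsProfile τ) (hdev : ∀ past v, G.kind v ≠ Kind.player i → τ past v = σ v)
    (Φ : V → ℝ) (h0 : ∀ v, 0 ≤ Φ v) (h1 : ∀ v, G.T v = true → G.rew i v ≤ Φ v)
    (h2 : ∀ v, G.kind v = Kind.player i → ∀ u, G.adj v u → Φ u ≤ Φ v)
    (h3 : ∀ v, G.T v = false → G.kind v ≠ Kind.player i → ∑ u, G.P σ v u * Φ u ≤ Φ v) :
    G.payoff τ i ≤ Φ G.init := by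
  have key : ∀ t past v, G.val τ i t past v ≤ Φ v := by
    intro t
    induction t with
    | zero =>
      intro past v
      simp only [val]
      split_ifs with hT
      · exact h1 v hT
      · exact h0 v
    | succ t ih =>
      intro past v
      simp only [val]
      split_ifs with hT
      · exact h1 v hT
      · have hTf : G.T v = false := by
          unfold T
          simpa using hT
        by_cases hk : G.kind v = Kind.player i
        · obtain ⟨a1, a2, a3⟩ := hτ past v i hk
          rw [hk]
          simp only [Kind.row]
          calc ∑ u, τ past v u * G.val τ i t (v :: past) u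
              ≤ ∑ u, τ past v u * Φ v := by
                refine sum_le_sum fun u _ => ?_
                by_cases hu : τ past v u = 0
                · rw [hu]; simp
                · exact mul_le_mul_of_nonneg_left
                    ((ih (v :: past) u).trans (h2 v hk u (a2 u hu))) (a1 u)
            _ = Φ v := by rw [← sum_mul, a3, one_mul]
        · refine le_trans (sum_le_sum fun u _ => ?_) (h3 v hTf hk)
          have e : (G.kind v).row (τ past v) u = G.P σ v u := by
            unfold P
            rw [hdev past v hk]
          rw [e]
          refine mul_le_mul_of_nonneg_left (ih _ u) ?_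
          unfold P
          cases hk' : G.kind v with
          | player j =>
            have := (hτ past v j hk').1 u
            rw [hdev past v hk] at this
            exact this
          | stoch p =>
            simp only [Kind.row]
            exact_mod_cast G.stoch_nonneg v p hk' u
          | term r => exact le_rfl
  exact ciSup_le fun t => key t [] G.init

end Game

/-! ### Sizes -/

/-- Binary length of a rational number (numerator, denominator and a sign bit). -/
def ratSize (q : ℚ) : ℕ := q.num.natAbs.size + q.den.size + 1

/-- Size of the data of a vertex: the owner in unary, the distribution, or the rewards. -/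
def Kind.size {Pl V : Type} [Fintype Pl] [Fintype V] : Kind Pl V → ℕ
  | Kind.player _ => Fintype.card Pl
  | Kind.stoch p => ∑ u, ratSize (p u)
  | Kind.term r => ∑ i, ratSize (r i)

/-- Size of the instance: adjacency matrix, vertex data, constraint vectors and `ε`. -/
def Game.inputSize {Pl V : Type} [Fintype Pl] [Fintype V] (G : Game Pl V) (x y : Pl → ℚ)
    (ε : ℚ) : ℕ :=
  Fintype.card V * Fintype.card V + ∑ v, (G.kind v).size + ∑ i, (ratSize (x i) + ratSize (y i)) +
    ratSize ε

/-- Q1 of the problem. -/
def Q1 : Prop :=
  ∃ p : Polynomial ℝ, ∀ (Pl V : Type) [Fintype Pl] [Fintype V] (G : Game Pl V) (x y : Pl → ℚ)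
    (ε : ℚ), 0 < ε → (∃ σ, G.IsCNE ε x y σ) →
      ∃ σ, G.IsCNE ε x y σ ∧
        ∃ L : ℕ, (L : ℝ) ≤ p.eval (G.inputSize x y ε : ℝ) ∧ G.FixedPoint σ L

end Pool.Agent.R645.NE
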