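import Pool.Agent.R645.NE.Game

set_option autoImplicit false

open Finset Filter Topology

namespace Pool.Agent.R645.NE

/-- The vertices of the game `G_n`. -/
inductive Vx (n : ℕ) : Type
  | init | X | W
  | cf (l : Fin (n + 1)) | ct (l : Fin (n + 1))
  | ya (l : Fin (n + 1)) | yb (l : Fin (n + 1))
  | ha (l : Fin (n + 1)) | hb (l : Fin (n + 1))
  | D (l : Fin (n + 1)) | Y (l : Fin (n + 1))
  deriving DecidableEq, Fintype

section dist
variable {K : Type} [Field K] {V : Type} [DecidableEq V]

/-- Point mass. -/
def one (a u : V) : K := if u = a then 1 else 0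

/-- Mass `p` at `a` and `1 - p` at `b`. -/
def two (a b : V) (p : K) (u : V) : K := (if u = a then p else 0) + (if u = b then 1 - p else 0)

theorem sum_one_mul [Fintype V] (a : V) (f : V → K) : ∑ u, one a u * f u = f a := by
  simp [one]

theorem sum_two_mul [Fintype V] (a b : V) (p : K) (f : V → K) :
    ∑ u, two a b p u * f u = p * f a + (1 - p) * f b := by
  simp [two, add_mul, sum_add_distrib]

theorem sum_one [Fintype V] (a : V) : ∑ u, (one a u : K) = 1 := by
  simp [one]

theorem sum_two [Fintype V] (a b : V) (p : K) : ∑ u, two a b p u = 1 := by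
  simp [two, sum_add_distrib]

end dist

theorem two_nonneg {V : Type} [DecidableEq V] {K : Type} [Field K] [LinearOrder K]
    [IsStrictOrderedRing K] (a b : V) {p : K} (h0 : 0 ≤ p)
    (h1 : p ≤ 1) (u : V) : 0 ≤ two a b p u := by
  unfold two
  have : 0 ≤ 1 - p := by linarith
  split_ifs <;> simp [h0, this]

theorem one_nonneg {V : Type} [DecidableEq V] {K : Type} [Field K] [LinearOrder K]
    [IsStrictOrderedRing K] (a u : V) : (0 : K) ≤ one a u := by
  unfold one
  split_ifs <;> simp

theorem two_supp {V : Type} [DecidableEq V] {K : Type} [Field K] {a b u : V} {p : K}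
    (h : two a b p u ≠ 0) : u = a ∨ u = b := by
  by_contra hc
  push Not at hc
  apply h
  simp [two, hc.1, hc.2]

theorem one_supp {V : Type} [DecidableEq V] {K : Type} [Field K] {a u : V}
    (h : (one a u : K) ≠ 0) : u = a := by
  by_contra hc
  apply h
  simp [one, hc]

theorem two_cast {V : Type} [DecidableEq V] (a b : V) (p : ℚ) (u : V) :
    ((two a b p u : ℚ) : ℝ) = two a b (p : ℝ) u := by
  unfold two
  split_ifs <;> simp

variable {n : ℕ}

/-- The initial distribution: uniform on the vertices `ha l`. -/
def unif (n : ℕ) (u : Vx n) : ℚ := ∑ l : Fin (n + 1), if u = Vx.ha l then 1 / ((n : ℚ) + 1) else 0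

theorem sum_unif_mul (f : Vx n → ℝ) :
    ∑ u, (unif n u : ℝ) * f u = (∑ l : Fin (n + 1), f (Vx.ha l)) / (n + 1) := by
  have h1 : ∀ u : Vx n, (unif n u : ℝ) * f u =
      ∑ l : Fin (n + 1), if u = Vx.ha l then f u / ((n : ℝ) + 1) else 0 := by
    intro u
    unfold unif
    push_cast
    rw [sum_mul]
    refine sum_congr rfl fun l _ => ?_
    split_ifs
    · push_cast
      ring
    · simp
  rw [sum_congr rfl fun u _ => h1 u, sum_comm]
  simp [sum_div]

theorem sum_unif : ∑ u, unif n u = 1 := by
  unfold unif
  rw [sum_comm]
  have : ((n : ℚ) + 1) ≠ 0 := by positivity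
  simp [this]

/-- The edges. -/
def adjR (n : ℕ) : Vx n → Vx n → Prop
  | .init, .ha _ => True
  | .cf l, .ya l' => l' = l
  | .cf l, .ha l' => l' = l
  | .ct l, .Y l' => l' = l
  | .ct l, .ha l' => l' = l
  | .ya _, .W => True
  | .ya l, .yb l' => l' = l
  | .yb l, .Y l' => l' = l
  | .yb l, .ct l' => l' = l
  | .ha l, .hb l' => l' = l
  | .ha l, .cf l' => l'.val = l.val + 1 ∧ l'.val < n
  | .ha l, .ct l' => l'.val = l.val + 1
  | .hb l, .D l' => l' = l ∧ l.val < n
  | .hb l, .X => l.val = n
  | .hb l, .cf l' => l.val = l'.val + 1
  | .X, .D l' => l'.val = n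
  | .X, .ct l' => l'.val = n
  | _, _ => False

/-- The player indexed by `l + 1`, or `0` if `l = n`. -/
def up (l : Fin (n + 1)) : Fin (n + 2) := if l.val = n then 0 else l.succ

/-- The base probability. -/
def kap (n : ℕ) : ℚ := 1 / (4 * ((n : ℚ) + 1))

/-- The vertex kinds. Player `0` only cares about `Y n`, the last player owns the checks. -/
def kindR (n : ℕ) : Vx n → Kind (Fin (n + 2)) (Vx n)
  | .init => Kind.stoch (unif n)
  | .cf l => if l = 0 then Kind.stoch (two (Vx.ya 0) (Vx.ha 0) (kap n)) else
      Kind.player (Fin.last _)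
  | .ct l => if l = 0 then Kind.stoch (two (Vx.Y 0) (Vx.ha 0) (kap n)) else
      Kind.player (Fin.last _)
  | .ya l => Kind.player l.castSucc
  | .yb l => Kind.player (up l)
  | .ha l => Kind.player (up l)
  | .hb l => Kind.player l.castSucc
  | .X => Kind.player (Fin.last _)
  | .W => Kind.term fun i => if i.val = 0 ∨ i.val = n + 1 then 0 else 1
  | .D l => Kind.term fun i => if i.val = n + 1 then 1 else if i.val = 0 then 0 else
      if i.val = l.val ∨ i.val = l.val + 1 then 0 else 1
  | .Y l => Kind.term fun i => if i.val = 0 ∨ i.val = n + 1 then (if l.val = n then 1 else 0) else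
      if i.val = l.val + 1 then 0 else 1

theorem kap_nonneg : 0 ≤ kap n := by unfold kap; positivity

theorem kap_le_one : kap n ≤ 1 := by
  unfold kap
  rw [div_le_one (by positivity)]
  have : (0 : ℚ) ≤ n := by positivity
  linarith

/-- The game `G_n`. -/
def Gm (n : ℕ) : Game (Fin (n + 2)) (Vx n) where
  adj := adjR n
  kind := kindR n
  init := Vx.init
  player_succ := by
    intro v i h
    cases v with
    | init => simp [kindR] at h
    | X => exact ⟨Vx.ct (Fin.last n), by simp [adjR]⟩
    | W => simp [kindR] at h
    | cf l => exact ⟨Vx.ha l, by simp [adjR]⟩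
    | ct l => exact ⟨Vx.ha l, by simp [adjR]⟩
    | ya l => exact ⟨Vx.W, by simp [adjR]⟩
    | yb l => exact ⟨Vx.Y l, by simp [adjR]⟩
    | ha l => exact ⟨Vx.hb l, by simp [adjR]⟩
    | hb l =>
      rcases Nat.lt_or_ge l.val n with h1 | h1
      · exact ⟨Vx.D l, by simp [adjR, h1]⟩
      · exact ⟨Vx.X, by simp only [adjR]; omega⟩
    | D l => simp [kindR] at h
    | Y l => simp [kindR] at h
  stoch_nonneg := by
    intro v p h u
    cases v with
    | init =>
      simp only [kindR, Kind.stoch.injEq] at h
      subst h
      unfold unif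
      refine sum_nonneg fun l _ => ?_
      split_ifs <;> positivity
    | cf l =>
      simp only [kindR] at h
      split_ifs at h
      simp only [Kind.stoch.injEq] at h
      subst h
      exact two_nonneg _ _ kap_nonneg kap_le_one u
    | ct l =>
      simp only [kindR] at h
      split_ifs at h
      simp only [Kind.stoch.injEq] at h
      subst h
      exact two_nonneg _ _ kap_nonneg kap_le_one u
    | _ => simp [kindR] at h
  stoch_supp := by
    intro v p h u hu
    cases v with
    | init =>
      simp only [kindR, Kind.stoch.injEq] at h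
      subst h
      unfold unif at hu
      obtain ⟨l, -, hl⟩ := exists_ne_zero_of_sum_ne_zero hu
      by_cases h1 : u = Vx.ha l
      · subst h1; simp [adjR]
      · simp [h1] at hl
    | cf l =>
      simp only [kindR] at h
      split_ifs at h with h0
      simp only [Kind.stoch.injEq] at h
      subst h
      subst h0
      rcases two_supp hu with rfl | rfl <;> simp [adjR]
    | ct l =>
      simp only [kindR] at h
      split_ifs at h with h0
      simp only [Kind.stoch.injEq] at h
      subst h
      subst h0
      rcases two_supp hu with rfl | rfl <;> simp [adjR]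
    | _ => simp [kindR] at h
  stoch_sum := by
    intro v p h
    cases v with
    | init =>
      simp only [kindR, Kind.stoch.injEq] at h
      subst h
      exact sum_unif
    | cf l =>
      simp only [kindR] at h
      split_ifs at h
      simp only [Kind.stoch.injEq] at h
      subst h
      exact sum_two _ _ _
    | ct l =>
      simp only [kindR] at h
      split_ifs at h
      simp only [Kind.stoch.injEq] at h
      subst h
      exact sum_two _ _ _
    | _ => simp [kindR] at h
  term_adj := by
    intro v r h u
    cases v with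
    | W => cases u <;> simp [adjR]
    | D l => cases u <;> simp [adjR]
    | Y l => cases u <;> simp [adjR]
    | cf l => simp only [kindR] at h; split_ifs at h
    | ct l => simp only [kindR] at h; split_ifs at h
    | _ => simp [kindR] at h
  term_reward := by
    intro v r h i
    cases v with
    | W => simp only [kindR, Kind.term.injEq] at h; subst h; dsimp only; split_ifs <;> simp
    | D l => simp only [kindR, Kind.term.injEq] at h; subst h; dsimp only; split_ifs <;> simp
    | Y l => simp only [kindR, Kind.term.injEq] at h; subst h; dsimp only; split_ifs <;> simp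
    | cf l => simp only [kindR] at h; split_ifs at h
    | ct l => simp only [kindR] at h; split_ifs at h
    | _ => simp [kindR] at h

end Pool.Agent.R645.NE
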