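import Pool.Agent.R645.NE.Ctx

set_option autoImplicit false

open Finset Filter Topology

namespace Pool.Agent.R645.NE

variable {n : ℕ}

section absorb

variable {σ : Vx n → Vx n → ℝ} {m : ℕ} {hm : m < n} {c : Vx n}

theorem absorb (hp : (Gm n).IsProfile (Game.stat σ)) (h0 : RR σ Vx.init) (hc : Adm m c)
    (hpt : ∀ l : Fin (n + 1), m + 1 ≤ l.val → 0 < dt σ l)
    (hpf : ∀ l : Fin (n + 1), m + 1 ≤ l.val → l.val < n → 0 < df σ l) :
    H ((Gm n).P (dv σ m hm c)) (Gm n).T (fun _ => 1) Vx.init = 1 := by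
  have hchain := (Gm n).isChain hp
  have hchQ := (Gm n).isChain (dv_profile (hm := hm) hp hc)
  refine absorbed hchQ {v | CC σ m v} (fun v hv hT u hu => CC_closed hp h0 hc hv hT hu) ?_ trivial
  intro S hSC hne hS
  have hTm : ∀ v, (Gm n).T v = true → v ∉ S := by
    intro v h1 h2
    rw [(hS v h2).1] at h1
    exact absurd h1 (by decide)
  have hex : ∀ v ∈ S, ∃ u, (Gm n).P (dv σ m hm c) v u ≠ 0 ∧ u ∈ S := by
    intro v hv
    by_contra hcon
    push Not at hcon
    have h1 : ∀ u, (Gm n).P (dv σ m hm c) v u = 0 := by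
      intro u
      by_contra hne
      exact hcon u hne ((hS v hv).2 u hne)
    have h2 := hchQ.sum v (hS v hv).1
    simp [h1] at h2
  have s_ct : ∀ l : Fin (n + 1), m + 1 ≤ l.val → Vx.ct l ∉ S := by
    intro l hl h
    exact hTm _ (T_Y l) ((hS _ h).2 _ (hpt l hl).ne')
  have s_yb : ∀ l : Fin (n + 1), m + 1 ≤ l.val → Vx.yb l ∉ S := by
    intro l hl h
    obtain ⟨u, h1, h2⟩ := hex _ h
    rw [Q_yb (by omega)] at h1
    rcases adj_yb ((Gm n).P_adj hp h1) with rfl | rfl
    · exact hTm _ (T_Y l) h2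
    · exact s_ct l hl h2
  have s_ya : ∀ l : Fin (n + 1), m + 1 ≤ l.val → Vx.ya l ∉ S := by
    intro l hl h
    obtain ⟨u, h1, h2⟩ := hex _ h
    by_cases hl1 : l.val = m + 1
    · rw [Q_ya' hl1] at h1
      rw [one_supp h1] at h2
      exact hTm _ T_W h2
    · rw [Q_ya hl1] at h1
      rcases adj_ya ((Gm n).P_adj hp h1) with rfl | rfl
      · exact hTm _ T_W h2
      · exact s_yb l hl h2
  have s_cf : ∀ l : Fin (n + 1), m + 1 ≤ l.val → l.val < n → Vx.cf l ∉ S := by
    intro l hl hl' h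
    exact s_ya l hl ((hS _ h).2 _ (hpf l hl hl').ne')
  have s_c : c ∉ S := by
    rcases hc with ⟨l', rfl, h1⟩ | ⟨l', rfl, h1, h2⟩
    · exact s_ct l' (by omega)
    · exact s_cf l' (by omega) (by omega)
  have s_ham : ∀ l : Fin (n + 1), l.val = m → Vx.ha l ∉ S := by
    intro l hl h
    obtain ⟨u, h1, h2⟩ := hex _ h
    rw [Q_ha' hl] at h1
    rw [one_supp h1] at h2
    exact s_c h2
  have s_ctm : ∀ l : Fin (n + 1), l.val = m → Vx.ct l ∉ S := by
    intro l hl h
    obtain ⟨u, h1, h2⟩ := hex _ h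
    rw [Q_ct] at h1
    rcases adj_ct ((Gm n).P_adj hp h1) with rfl | rfl
    · exact hTm _ (T_Y l) h2
    · exact s_ham l hl h2
  have s_ybm : ∀ l : Fin (n + 1), l.val = m → Vx.yb l ∉ S := by
    intro l hl h
    obtain ⟨u, h1, h2⟩ := hex _ h
    rw [Q_yb' hl] at h1
    rw [one_supp h1] at h2
    exact s_ctm l hl h2
  have s_yam : ∀ l : Fin (n + 1), l.val = m → Vx.ya l ∉ S := by
    intro l hl h
    obtain ⟨u, h1, h2⟩ := hex _ h
    rw [Q_ya (by omega)] at h1
    rcases adj_ya ((Gm n).P_adj hp h1) with rfl | rfl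
    · exact hTm _ T_W h2
    · exact s_ybm l hl h2
  have s_cfm : ∀ l : Fin (n + 1), l.val = m → Vx.cf l ∉ S := by
    intro l hl h
    obtain ⟨u, h1, h2⟩ := hex _ h
    rw [Q_cf] at h1
    rcases adj_cf ((Gm n).P_adj hp h1) with rfl | rfl
    · exact s_yam l hl h2
    · exact s_ham l hl h2
  have s_X : Vx.X ∉ S := by
    intro h
    obtain ⟨u, h1, h2⟩ := hex _ h
    rw [Q_X] at h1
    rcases adj_X ((Gm n).P_adj hp h1) with ⟨l, rfl, hl⟩ | ⟨l, rfl, hl⟩
    · exact hTm _ (T_D l) h2
    · exact s_ct l (by omega) h2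
  have s_hb : ∀ l : Fin (n + 1), m + 1 ≤ l.val → Vx.hb l ∉ S := by
    intro l hl h
    obtain ⟨u, h1, h2⟩ := hex _ h
    by_cases hl1 : l.val = m + 1
    · rw [Q_hb' hl1] at h1
      rw [one_supp h1] at h2
      exact s_cfm _ rfl h2
    · rw [Q_hb hl1] at h1
      have := l.isLt
      rcases adj_hb ((Gm n).P_adj hp h1) with ⟨rfl, h3⟩ | ⟨rfl, h3⟩ | ⟨l', rfl, h3⟩
      · exact hTm _ (T_D l) h2
      · exact s_X h2
      · exact s_cf l' (by omega) (by omega) h2
  have s_ha : ∀ l : Fin (n + 1), m + 1 ≤ l.val → Vx.ha l ∉ S := by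
    intro l hl h
    obtain ⟨u, h1, h2⟩ := hex _ h
    rw [Q_ha (by omega)] at h1
    rcases adj_ha ((Gm n).P_adj hp h1) with rfl | ⟨l', rfl, h3, h4⟩ | ⟨l', rfl, h3⟩
    · exact s_hb l hl h2
    · exact s_cf l' (by omega) h4 h2
    · exact s_ct l' (by omega) h2
  have s_cfn : ∀ l : Fin (n + 1), l.val = n → Vx.cf l ∉ S := by
    intro l hl h
    obtain ⟨u, h1, h2⟩ := hex _ h
    rw [Q_cf] at h1
    rcases adj_cf ((Gm n).P_adj hp h1) with rfl | rfl
    · exact s_ya l (by omega) h2
    · exact s_ha l (by omega) h2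
  have s_init : Vx.init ∉ S := by
    intro h
    refine s_ham ⟨m, by omega⟩ rfl ((hS _ h).2 _ ?_)
    rw [Q_init, P_init]
    have : unif n (Vx.ha ⟨m, by omega⟩) = 1 / ((n : ℚ) + 1) := by
      unfold unif
      simp
    rw [this]
    push_cast
    positivity
  -- the remaining vertices are below level `m`
  have hlow : ∀ v ∈ S, RR σ v ∧ (Gm n).P (dv σ m hm c) v = (Gm n).P σ v := by
    intro v hv
    have hCv := hSC hv
    change CC σ m v at hCv
    cases v with
    | init => exact absurd hv s_init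
    | X => exact absurd hv s_X
    | W => exact absurd hv (hTm _ T_W)
    | D l => exact absurd hv (hTm _ (T_D l))
    | Y l => exact absurd hv (hTm _ (T_Y l))
    | cf l =>
      have hl : l.val < m := by
        by_contra h
        push Not at h
        have := l.isLt
        rcases h.eq_or_lt with h | h
        · exact s_cfm l h.symm hv
        · rcases Nat.lt_or_ge l.val n with h' | h'
          · exact s_cf l h h' hv
          · exact s_cfn l (by omega) hv
      exact ⟨hCv hl, Q_cf l⟩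
    | ct l =>
      have hl : l.val < m := by
        by_contra h
        push Not at h
        rcases h.eq_or_lt with h | h
        · exact s_ctm l h.symm hv
        · exact s_ct l h hv
      exact ⟨hCv hl, Q_ct l⟩
    | ya l =>
      have hl : l.val < m := by
        by_contra h
        push Not at h
        rcases h.eq_or_lt with h | h
        · exact s_yam l h.symm hv
        · exact s_ya l h hv
      exact ⟨hCv hl, Q_ya (by omega)⟩
    | yb l =>
      have hl : l.val < m := by
        by_contra h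
        push Not at h
        rcases h.eq_or_lt with h | h
        · exact s_ybm l h.symm hv
        · exact s_yb l h hv
      exact ⟨hCv hl, Q_yb (by omega)⟩
    | ha l =>
      have hl : l.val < m := by
        by_contra h
        push Not at h
        rcases h.eq_or_lt with h | h
        · exact s_ham l h.symm hv
        · exact s_ha l h hv
      exact ⟨hCv hl, Q_ha (by omega)⟩
    | hb l =>
      have hl : l.val < m := by
        by_contra h
        push Not at h
        rcases h.eq_or_lt with h | h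
        · exact hCv.1 h.symm
        · exact s_hb l h hv
      exact ⟨hCv.2 hl, Q_hb (by omega)⟩
  obtain ⟨v, hv⟩ := hne
  have h1 := zero_of_closed hchain ((Gm n).rew_nonneg (Fin.last (n + 1)))
    ((Gm n).rew_le_one (Fin.last (n + 1))) S (fun w hw => ⟨(hS w hw).1, fun u hu => by
      refine (hS w hw).2 u ?_
      rw [(hlow w hw).2]
      exact hu⟩) hv
  have h2 := (hlow v hv).1
  unfold RR at h2
  rw [h1] at h2
  exact zero_ne_one h2

/-- The inequality obtained from the deviation of player `m + 1`. -/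
theorem context (hcne : (Gm n).IsCNE (epsn n) (xlow n) (yup n) σ) (hm : m < n)
    (h0 : RR σ Vx.init) (hc : Adm m c) {δ : ℝ} (hδ0 : 0 < δ) (hδ1 : δ ≤ 1)
    (hδ : ∀ g : Vx n → ℝ, g Vx.W = 0 → (∀ l : Fin (n + 1), l.val = m + 1 → g (Vx.Y l) = 0 ∧
      g (Vx.ya l) = 0) → ∀ l : Fin (n + 1), l.val = m + 1 →
      ∑ u, (Gm n).P σ c u * g u = (1 - δ) * g (Vx.ha l))
    (hpt : ∀ l : Fin (n + 1), m + 1 ≤ l.val → 0 < dt σ l)
    (hpf : ∀ l : Fin (n + 1), m + 1 ≤ l.val → l.val < n → 0 < df σ l)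
    (mf : Fin (n + 1)) (hmf : mf.val = m) :
    3 / (4 * ((n : ℝ) + 1)) * δ ≤ df σ mf * dt σ mf := by
  have hp := hcne.1.1
  have hdp := dv_profile (hm := hm) hp hc
  have hchQ := (Gm n).isChain hdp
  obtain ⟨lam, hlam⟩ : ∃ lam, lam = df σ mf * dt σ mf := ⟨_, rfl⟩
  have hl0 : 0 ≤ lam := by rw [hlam]; exact mul_nonneg (df_nonneg hp _) (dt_nonneg hp _)
  have hl1 : lam ≤ 1 := by
    rw [hlam]
    exact mul_le_one₀ (df_le_one hp _) (dt_nonneg hp _) (dt_le_one hp _)
  have hden : 0 < lam + δ - lam * δ := by nlinarith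
  obtain ⟨θ1, hθ1⟩ : ∃ θ1, θ1 = lam / (lam + δ - lam * δ) := ⟨_, rfl⟩
  have hθ10 : 0 ≤ θ1 := by rw [hθ1]; exact div_nonneg hl0 hden.le
  have hmul : θ1 * (lam + δ - lam * δ) = lam := by
    rw [hθ1]; exact div_mul_cancel₀ _ hden.ne'
  have h3 : 0 ≤ (1 - δ) * θ1 := mul_nonneg (by linarith) hθ10
  have h4 : (1 - δ) * θ1 ≤ θ1 := by nlinarith
  have e2 : θ1 = df σ mf * dt σ mf + (1 - df σ mf * dt σ mf) * ((1 - δ) * θ1) := by
    rw [← hlam]
    linarith
  let i : Fin (n + 2) := ⟨m + 1, by omega⟩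
  have hi : i.val = m + 1 := rfl
  have hℓ : H ((Gm n).P (dv σ m hm c)) (Gm n).T (fun v => 1 - (Gm n).rew i v) Vx.init ≤
      gg m c (dt σ mf) ((1 - δ) * θ1) θ1 Vx.init := by
    refine H_le hchQ (fun v => by linarith [(Gm n).rew_le_one i v])
      (fun v => by linarith [(Gm n).rew_nonneg i v]) {v | CC σ m v} _
      (fun v _ _ => gg_nonneg (dt_nonneg hp mf) (dt_le_one hp mf) h3 h4 v) ?_
      (fun v hv hT u hu => CC_closed hp h0 hc hv hT hu)
      (fun v hv hT => gg_super hp hc hmf hδ h3 h4 rfl e2 hv hT) trivial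
    intro v hv hT
    cases v with
    | W =>
      rw [rew_W, if_neg (by omega)]
      simp [gg]
    | D l =>
      have hv' : l.val ≠ m ∧ l.val ≠ m + 1 := hv
      rw [rew_D, if_neg (by omega), if_neg (by omega), if_neg (by omega)]
      simp [gg]
    | Y l =>
      rw [rew_Y, if_neg (by omega)]
      simp only [gg]
      by_cases h : l.val = m
      · rw [if_pos (by omega), if_pos h]
        norm_num
      · rw [if_neg (by omega), if_neg h]
        norm_num
    | init => simp [T_init] at hT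
    | X => simp [T_X] at hT
    | cf l => simp [T_cf] at hT
    | ct l => simp [T_ct] at hT
    | ya l => simp [T_ya] at hT
    | yb l => simp [T_yb] at hT
    | ha l => simp [T_ha] at hT
    | hb l => simp [T_hb] at hT
  have hg : gg m c (dt σ mf) ((1 - δ) * θ1) θ1 Vx.init = θ1 := rfl
  rw [hg] at hℓ
  have habs := absorb (hm := hm) hp h0 hc hpt hpf
  have hpay := H_compl hchQ (r := (Gm n).rew i) (fun v => 1 - (Gm n).rew i v)
    ((Gm n).rew_nonneg i) (fun v => by linarith [(Gm n).rew_le_one i v]) (fun v => by ring) habs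
  have hne := hcne.1.2 i (Game.stat (dv σ m hm c)) hdp (fun past v hk => dv_off v hk)
  have hup := (hcne.2 i).2
  have e1 : (Gm n).payoff (Game.stat (dv σ m hm c)) i =
      H ((Gm n).P (dv σ m hm c)) (Gm n).T ((Gm n).rew i) Vx.init := (Gm n).payoff_stat _ _
  rw [e1, hpay] at hne
  have e3 : ((yup n i : ℚ) : ℝ) = 1 - 1 / ((n : ℝ) + 1) := by
    unfold yup
    rw [if_neg (by omega), if_neg (by omega)]
    push_cast
    rfl
  have e4 : ((epsn n : ℚ) : ℝ) = 1 / (4 * ((n : ℝ) + 1)) := by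
    unfold epsn
    push_cast
    rfl
  rw [e3] at hup
  rw [e4] at hne
  have e5 : 1 / (4 * ((n : ℝ) + 1)) = 1 / 4 * (1 / ((n : ℝ) + 1)) := by
    rw [one_div_mul_one_div]
  have e6 : 3 / (4 * ((n : ℝ) + 1)) = 3 / 4 * (1 / ((n : ℝ) + 1)) := by
    field_simp
  rw [e5] at hne
  rw [e6, ← hlam]
  have h5 : 3 / 4 * (1 / ((n : ℝ) + 1)) ≤ θ1 := by linarith
  have h6 : θ1 * δ ≤ lam := by
    have h7 : θ1 * δ ≤ θ1 * (lam + δ - lam * δ) := by
      apply mul_le_mul_of_nonneg_left _ hθ10
      nlinarith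
    linarith
  nlinarith

theorem context_ct (hcne : (Gm n).IsCNE (epsn n) (xlow n) (yup n) σ) (h0 : RR σ Vx.init)
    (l mf : Fin (n + 1)) (hl : l.val = mf.val + 1)
    (hpt : ∀ l : Fin (n + 1), mf.val + 1 ≤ l.val → 0 < dt σ l)
    (hpf : ∀ l : Fin (n + 1), mf.val + 1 ≤ l.val → l.val < n → 0 < df σ l) :
    3 / (4 * ((n : ℝ) + 1)) * dt σ l ≤ df σ mf * dt σ mf := by
  have hp := hcne.1.1
  have := l.isLt
  refine context hcne (m := mf.val) (c := Vx.ct l) (by omega) h0 (Or.inl ⟨l, rfl, hl⟩)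
    (hpt l (by omega)) (dt_le_one hp l) ?_ hpt hpf mf rfl
  intro g _ hg l' hl'
  have : l' = l := Fin.ext (by omega)
  subst this
  rw [row_ct hp, (hg l' hl').1]
  ring

theorem context_cf (hcne : (Gm n).IsCNE (epsn n) (xlow n) (yup n) σ) (h0 : RR σ Vx.init)
    (l mf : Fin (n + 1)) (hl : l.val = mf.val + 1) (hln : l.val < n)
    (hpt : ∀ l : Fin (n + 1), mf.val + 1 ≤ l.val → 0 < dt σ l)
    (hpf : ∀ l : Fin (n + 1), mf.val + 1 ≤ l.val → l.val < n → 0 < df σ l) :
    3 / (4 * ((n : ℝ) + 1)) * df σ l ≤ df σ mf * dt σ mf := by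
  have hp := hcne.1.1
  refine context hcne (m := mf.val) (c := Vx.cf l) (by omega) h0
    (Or.inr ⟨l, rfl, hl, by omega⟩)
    (hpf l (by omega) hln) (df_le_one hp l) ?_ hpt hpf mf rfl
  intro g _ hg l' hl'
  have : l' = l := Fin.ext (by omega)
  subst this
  rw [row_cf hp, (hg l' hl').2]
  ring

theorem RR_init (hcne : (Gm n).IsCNE (epsn n) (xlow n) (yup n) σ) : RR σ Vx.init := by
  have hp := hcne.1.1
  have h1 := (hcne.2 (Fin.last (n + 1))).1
  rw [(Gm n).payoff_stat] at h1
  have e : ((xlow n (Fin.last (n + 1)) : ℚ) : ℝ) = 1 := by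
    unfold xlow
    rw [if_pos (Fin.val_last _)]
    norm_num
  rw [e] at h1
  exact le_antisymm (H_le_one ((Gm n).isChain hp) ((Gm n).rew_nonneg _) ((Gm n).rew_le_one _) _) h1

/-- All checks say yes with positive probability. -/
theorem all_pos (hn : 1 ≤ n) (hcne : (Gm n).IsCNE (epsn n) (xlow n) (yup n) σ) (k : ℕ)
    (hk : k ≤ n) :
    (∀ l : Fin (n + 1), n - k ≤ l.val → 0 < dt σ l) ∧
      (∀ l : Fin (n + 1), n - k ≤ l.val → l.val < n → 0 < df σ l) := by
  have hp := hcne.1.1
  have h0 := RR_init hcne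
  induction k with
  | zero =>
    constructor
    · intro l hl
      have := l.isLt
      have hl' : l = Fin.last n := Fin.ext (by rw [Fin.val_last]; omega)
      rw [hl']
      refine dt_top hp ?_
      have h1 := (hcne.2 0).1
      refine lt_of_lt_of_le ?_ h1
      unfold xlow
      have e0 : ((0 : Fin (n + 2)).val) = 0 := rfl
      rw [if_neg (by omega), if_pos e0]
      push_cast
      positivity
    · intro l hl hl'
      omega
  | succ k ih =>
    obtain ⟨ih1, ih2⟩ := ih (by omega)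
    have hlt : n - (k + 1) < n + 1 := by omega
    have hlt' : n - k < n + 1 := by omega
    have hpt : ∀ l : Fin (n + 1), (⟨n - (k + 1), hlt⟩ : Fin (n + 1)).val + 1 ≤ l.val →
        0 < dt σ l := fun l hl => ih1 l (by simp only at hl; omega)
    have hpf : ∀ l : Fin (n + 1), (⟨n - (k + 1), hlt⟩ : Fin (n + 1)).val + 1 ≤ l.val →
        l.val < n → 0 < df σ l := fun l hl hl' => ih2 l (by simp only at hl; omega) hl'
    have h1 := context_ct hcne h0 ⟨n - k, hlt'⟩ ⟨n - (k + 1), hlt⟩ (by simp only; omega) hpt hpf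
    have h2 : 0 < dt σ ⟨n - k, hlt'⟩ := ih1 _ le_rfl
    have h3 : 0 < df σ ⟨n - (k + 1), hlt⟩ * dt σ ⟨n - (k + 1), hlt⟩ := by
      refine lt_of_lt_of_le ?_ h1
      positivity
    have h4 : 0 < dt σ ⟨n - (k + 1), hlt⟩ := by
      rcases (dt_nonneg hp ⟨n - (k + 1), hlt⟩).lt_or_eq with h | h
      · exact h
      · rw [← h] at h3; simp at h3
    have h5 : 0 < df σ ⟨n - (k + 1), hlt⟩ := by
      rcases (df_nonneg hp ⟨n - (k + 1), hlt⟩).lt_or_eq with h | h
      · exact h
      · rw [← h] at h3; simp at h3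
    constructor
    · intro l hl
      rcases hl.eq_or_lt with h | h
      · have : l = ⟨n - (k + 1), hlt⟩ := Fin.ext h.symm
        rw [this]
        exact h4
      · exact ih1 l (by omega)
    · intro l hl hl'
      rcases hl.eq_or_lt with h | h
      · have : l = ⟨n - (k + 1), hlt⟩ := Fin.ext h.symm
        rw [this]
        exact h5
      · exact ih2 l (by omega) hl'

/-- All checks of level `l` say yes with probability at most `2 ^ (-2 ^ l) / (2 (n + 1))`. -/
theorem all_small (hn : 1 ≤ n) (hcne : (Gm n).IsCNE (epsn n) (xlow n) (yup n) σ) (k : ℕ) :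
    (∀ l : Fin (n + 1), l.val = k → dt σ l ≤ (1 / 2) ^ 2 ^ k / (2 * ((n : ℝ) + 1))) ∧
      (∀ l : Fin (n + 1), l.val = k → l.val < n →
        df σ l ≤ (1 / 2) ^ 2 ^ k / (2 * ((n : ℝ) + 1))) := by
  have hp := hcne.1.1
  have h0 := RR_init hcne
  obtain ⟨hp1, hp2⟩ := all_pos hn hcne n le_rfl
  have hpt : ∀ l : Fin (n + 1), 0 < dt σ l := fun l => hp1 l (by omega)
  have hpf : ∀ l : Fin (n + 1), l.val < n → 0 < df σ l := fun l => hp2 l (by omega)
  induction k with
  | zero =>
    have e : (1 / 2 : ℝ) ^ 2 ^ 0 / (2 * ((n : ℝ) + 1)) = 1 / (4 * ((n : ℝ) + 1)) := by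
      rw [pow_zero, pow_one]
      field_simp
      norm_num
    rw [e]
    constructor
    · intro l hl
      have : l = 0 := Fin.ext hl
      subst this
      apply le_of_eq
      show (kindR n (Vx.ct 0)).row (σ (Vx.ct 0)) (Vx.Y 0) = _
      simp only [kindR, if_true, Kind.row, two_cast, kap_real]
      simp [two]
    · intro l hl _
      have : l = 0 := Fin.ext hl
      subst this
      apply le_of_eq
      show (kindR n (Vx.cf 0)).row (σ (Vx.cf 0)) (Vx.ya 0) = _
      simp only [kindR, if_true, Kind.row, two_cast, kap_real]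
      simp [two]
  | succ k ih =>
    obtain ⟨ih1, ih2⟩ := ih
    have key : ∀ (l mf : Fin (n + 1)) (x : ℝ), l.val = k + 1 → mf.val = k →
        3 / (4 * ((n : ℝ) + 1)) * x ≤ df σ mf * dt σ mf →
          x ≤ (1 / 2) ^ 2 ^ (k + 1) / (2 * ((n : ℝ) + 1)) := by
      intro l mf x hl hmf hx
      have hlt := l.isLt
      have h1 := ih1 mf hmf
      have h2 := ih2 mf hmf (by omega)
      obtain ⟨q, hq⟩ : ∃ q : ℝ, q = (1 / 2) ^ 2 ^ k := ⟨_, rfl⟩
      obtain ⟨N, hN⟩ : ∃ N : ℝ, N = (n : ℝ) + 1 := ⟨_, rfl⟩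
      have hN0 : 0 < N := by rw [hN]; positivity
      have hq0 : 0 < q := by rw [hq]; positivity
      have e1 : (1 / 2 : ℝ) ^ 2 ^ (k + 1) = q * q := by
        rw [hq, pow_succ, pow_mul]
        ring
      rw [← hq, ← hN] at h1 h2
      rw [← hN] at hx
      rw [e1, ← hN]
      have h3 : df σ mf * dt σ mf ≤ q / (2 * N) * (q / (2 * N)) :=
        mul_le_mul h2 h1 (dt_nonneg hp _) (by positivity)
      have h4 := hx.trans h3
      have h5 : q / (2 * N) * (q / (2 * N)) = 3 / (4 * N) * (q * q / (3 * N)) := by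
        field_simp
        norm_num
      rw [h5] at h4
      have h6 : x ≤ q * q / (3 * N) := le_of_mul_le_mul_left h4 (by positivity)
      refine h6.trans ?_
      apply div_le_div_of_nonneg_left (by positivity) (by positivity)
      linarith
    constructor
    · intro l hl
      have hlt := l.isLt
      exact key l ⟨k, by omega⟩ _ hl rfl (context_ct hcne h0 l ⟨k, by omega⟩ hl
        (fun l _ => hpt l) (fun l _ => hpf l))
    · intro l hl hln
      have hlt := l.isLt
      exact key l ⟨k, by omega⟩ _ hl rfl (context_cf hcne h0 l ⟨k, by omega⟩ hl hln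
        (fun l _ => hpt l) (fun l _ => hpf l))

/-- Every constrained stationary equilibrium uses a doubly exponentially small probability. -/
theorem forced (hn : 1 ≤ n) (hcne : (Gm n).IsCNE (epsn n) (xlow n) (yup n) σ) :
    ∃ v i u, (Gm n).kind v = Kind.player i ∧ 0 < σ v u ∧ σ v u ≤ (1 / 2) ^ 2 ^ n := by
  have hk : (Gm n).kind (Vx.ct (Fin.last n)) = Kind.player (Fin.last (n + 1)) := by
    show kindR n (Vx.ct (Fin.last n)) = Kind.player (Fin.last (n + 1))
    simp only [kindR]
    rw [if_neg]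
    intro h
    have := congrArg Fin.val h
    rw [Fin.val_last, Fin.val_zero] at this
    omega
  refine ⟨Vx.ct (Fin.last n), Fin.last (n + 1), Vx.Y (Fin.last n), hk, ?_, ?_⟩
  · have h1 := (all_pos hn hcne 0 (Nat.zero_le _)).1 (Fin.last n) (by rw [Fin.val_last]; omega)
    have e : dt σ (Fin.last n) = σ (Vx.ct (Fin.last n)) (Vx.Y (Fin.last n)) := by
      unfold dt Game.P
      rw [hk]
      rfl
    rw [e] at h1
    exact h1
  · have h1 := (all_small hn hcne n).1 (Fin.last n) (Fin.val_last n)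
    have e : dt σ (Fin.last n) = σ (Vx.ct (Fin.last n)) (Vx.Y (Fin.last n)) := by
      unfold dt Game.P
      rw [hk]
      rfl
    rw [e] at h1
    refine h1.trans ?_
    apply div_le_self (by positivity)
    have : (0 : ℝ) ≤ n := by positivity
    linarith

end absorb

end Pool.Agent.R645.NE
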