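import Pool.Agent.R645.NE.Main

set_option autoImplicit false

open Finset Filter Topology

namespace Pool.Agent.R645.NE

variable {n : ℕ}

theorem size_le_self (a : ℕ) : a.size ≤ a := Nat.size_le.mpr Nat.lt_two_pow_self

theorem ratSize_div_le (a b : ℕ) (hb : 0 < b) : ratSize ((a : ℚ) / (b : ℚ)) ≤ a + b + 1 := by
  unfold ratSize
  have h1 : (((a : ℤ) : ℚ) / ((b : ℤ) : ℚ)).den ≤ b := by
    have := Rat.den_dvd (a : ℤ) (b : ℤ)
    exact Nat.le_of_dvd hb (by exact_mod_cast this)
  have h2 : (((a : ℤ) : ℚ) / ((b : ℤ) : ℚ)).num.natAbs ≤ a := by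
    have h3 := Rat.num_dvd (a : ℤ) (b := (b : ℤ)) (by exact_mod_cast hb.ne')
    rcases Nat.eq_zero_or_pos a with h | h
    · subst h
      simp
    · have h4 := Int.natAbs_dvd_natAbs.mpr h3
      rw [Int.natAbs_natCast, Rat.divInt_eq_div] at h4
      exact Nat.le_of_dvd h h4
  simp only [Int.cast_natCast] at h1 h2
  have h5 := size_le_self ((a : ℚ) / (b : ℚ)).den
  have h6 := size_le_self ((a : ℚ) / (b : ℚ)).num.natAbs
  omega

theorem ratSize_zero : ratSize 0 = 2 := by
  unfold ratSize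
  simp

theorem ratSize_one : ratSize 1 = 3 := by
  unfold ratSize
  simp

theorem ratSize_pos (q : ℚ) : 1 ≤ ratSize q := by
  unfold ratSize
  omega

theorem rs1 : ratSize (1 / ((n : ℚ) + 1)) ≤ 12 * (n + 1) := by
  have := ratSize_div_le 1 (n + 1) (by omega)
  push_cast at this
  omega

theorem rs2 : ratSize (kap n) ≤ 12 * (n + 1) := by
  have := ratSize_div_le 1 (4 * (n + 1)) (by omega)
  push_cast at this
  unfold kap
  omega

theorem rs3 : ratSize (1 - kap n) ≤ 12 * (n + 1) := by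
  have := ratSize_div_le (4 * n + 3) (4 * (n + 1)) (by omega)
  push_cast at this
  have e : 1 - kap n = (4 * (n : ℚ) + 3) / (4 * ((n : ℚ) + 1)) := by
    unfold kap
    field_simp
    ring
  rw [e]
  omega

theorem rs4 : ratSize (1 / (10 * ((n : ℚ) + 1))) ≤ 12 * (n + 1) := by
  have := ratSize_div_le 1 (10 * (n + 1)) (by omega)
  push_cast at this
  omega

theorem rs5 : ratSize (1 - 1 / ((n : ℚ) + 1)) ≤ 12 * (n + 1) := by
  have := ratSize_div_le n (n + 1) (by omega)
  push_cast at this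
  have e : 1 - 1 / ((n : ℚ) + 1) = (n : ℚ) / ((n : ℚ) + 1) := by
    field_simp
    ring
  rw [e]
  omega

theorem rs6 : ratSize (epsn n) ≤ 12 * (n + 1) := by
  have := ratSize_div_le 1 (4 * (n + 1)) (by omega)
  push_cast at this
  unfold epsn
  omega

theorem card_Vx : Fintype.card (Vx n) ≤ 11 * (n + 1) := by
  have h : Function.Injective (fun v : Vx n => match v with
      | .init => ((0 : Fin 11), (0 : Fin (n + 1)))
      | .X => (1, 0)
      | .W => (2, 0)
      | .cf l => (3, l)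
      | .ct l => (4, l)
      | .ya l => (5, l)
      | .yb l => (6, l)
      | .ha l => (7, l)
      | .hb l => (8, l)
      | .D l => (9, l)
      | .Y l => (10, l)) := by
    intro v w h
    cases v <;> cases w <;> simp_all
  have := Fintype.card_le_of_injective _ h
  simpa using this

theorem unif_size (u : Vx n) : ratSize (unif n u) ≤ 12 * (n + 1) := by
  cases u with
  | ha l =>
    have : unif n (Vx.ha l) = 1 / ((n : ℚ) + 1) := by
      unfold unif
      simp
    rw [this]
    exact rs1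
  | _ => simp only [unif]; simp [ratSize_zero]; try omega

theorem two_size {a b : Vx n} (hab : a ≠ b) (u : Vx n) :
    ratSize (two a b (kap n) u) ≤ 12 * (n + 1) := by
  unfold two
  by_cases h1 : u = a
  · have h2 : u ≠ b := fun h => hab (h1.symm.trans h)
    rw [if_pos h1, if_neg h2, add_zero]
    exact rs2
  · rw [if_neg h1, zero_add]
    split_ifs
    · exact rs3
    · rw [ratSize_zero]; omega

theorem stoch_size (p : Vx n → ℚ) (hp : ∀ u, ratSize (p u) ≤ 12 * (n + 1)) :
    (Kind.stoch p : Kind (Fin (n + 2)) (Vx n)).size ≤ 132 * (n + 1) ^ 2 := by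
  have h1 : (Kind.stoch p : Kind (Fin (n + 2)) (Vx n)).size = ∑ u, ratSize (p u) := rfl
  rw [h1]
  calc ∑ u, ratSize (p u) ≤ ∑ _u : Vx n, 12 * (n + 1) := sum_le_sum fun u _ => hp u
    _ = Fintype.card (Vx n) * (12 * (n + 1)) := by rw [sum_const, card_univ, smul_eq_mul]
    _ ≤ 11 * (n + 1) * (12 * (n + 1)) := Nat.mul_le_mul_right _ card_Vx
    _ = 132 * (n + 1) ^ 2 := by ring

theorem term_size (r : Fin (n + 2) → ℚ) (hr : ∀ i, r i = 0 ∨ r i = 1) :
    (Kind.term r : Kind (Fin (n + 2)) (Vx n)).size ≤ 132 * (n + 1) ^ 2 := by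
  have h1 : (Kind.term r : Kind (Fin (n + 2)) (Vx n)).size = ∑ i, ratSize (r i) := rfl
  rw [h1]
  have h2 : ∀ i, ratSize (r i) ≤ 3 := by
    intro i
    rcases hr i with h | h
    · rw [h, ratSize_zero]; omega
    · rw [h, ratSize_one]
  calc ∑ i, ratSize (r i) ≤ ∑ _i : Fin (n + 2), 3 := sum_le_sum fun i _ => h2 i
    _ = (n + 2) * 3 := by rw [sum_const, card_univ, Fintype.card_fin, smul_eq_mul]
    _ ≤ 132 * (n + 1) ^ 2 := by nlinarith

theorem player_size (i : Fin (n + 2)) :
    (Kind.player i : Kind (Fin (n + 2)) (Vx n)).size ≤ 132 * (n + 1) ^ 2 := by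
  have h1 : (Kind.player i : Kind (Fin (n + 2)) (Vx n)).size = Fintype.card (Fin (n + 2)) := rfl
  rw [h1, Fintype.card_fin]
  nlinarith

theorem kind_size (v : Vx n) : ((Gm n).kind v).size ≤ 132 * (n + 1) ^ 2 := by
  show (kindR n v).size ≤ _
  cases v with
  | init => exact stoch_size _ unif_size
  | X => exact player_size _
  | W =>
    refine term_size _ fun i => ?_
    split_ifs <;> simp
  | cf l =>
    simp only [kindR]
    split_ifs
    · exact stoch_size _ (two_size (by simp))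
    · exact player_size _
  | ct l =>
    simp only [kindR]
    split_ifs
    · exact stoch_size _ (two_size (by simp))
    · exact player_size _
  | ya l => exact player_size _
  | yb l => exact player_size _
  | ha l => exact player_size _
  | hb l => exact player_size _
  | D l =>
    refine term_size _ fun i => ?_
    split_ifs <;> simp
  | Y l =>
    refine term_size _ fun i => ?_
    split_ifs <;> simp

theorem size_bound : (Gm n).inputSize (xlow n) (yup n) (epsn n) ≤ 2000 * (n + 1) ^ 3 := by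
  unfold Game.inputSize
  have h1 : Fintype.card (Vx n) * Fintype.card (Vx n) ≤ 11 * (n + 1) * (11 * (n + 1)) :=
    Nat.mul_le_mul card_Vx card_Vx
  have h2 : ∑ v, ((Gm n).kind v).size ≤ 11 * (n + 1) * (132 * (n + 1) ^ 2) := by
    calc ∑ v, ((Gm n).kind v).size ≤ ∑ _v : Vx n, 132 * (n + 1) ^ 2 :=
          sum_le_sum fun v _ => kind_size v
      _ = Fintype.card (Vx n) * (132 * (n + 1) ^ 2) := by rw [sum_const, card_univ, smul_eq_mul]
      _ ≤ _ := Nat.mul_le_mul_right _ card_Vx
  have h3 : ∑ i, (ratSize (xlow n i) + ratSize (yup n i)) ≤ (n + 2) * (24 * (n + 1)) := by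
    calc ∑ i, (ratSize (xlow n i) + ratSize (yup n i)) ≤ ∑ _i : Fin (n + 2), 24 * (n + 1) := by
          refine sum_le_sum fun i _ => ?_
          have a1 : ratSize (xlow n i) ≤ 12 * (n + 1) := by
            unfold xlow
            split_ifs
            · rw [ratSize_one]; omega
            · exact rs4
            · rw [ratSize_zero]; omega
          have a2 : ratSize (yup n i) ≤ 12 * (n + 1) := by
            unfold yup
            split_ifs
            · rw [ratSize_one]; omega
            · rw [ratSize_one]; omega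
            · exact rs5
          omega
      _ = _ := by rw [sum_const, card_univ, Fintype.card_fin, smul_eq_mul]
  have h4 := rs6 (n := n)
  have h5 : (n + 1) ^ 2 ≤ (n + 1) ^ 3 := Nat.pow_le_pow_right (by omega) (by omega)
  have h6 : (n + 1) ≤ (n + 1) ^ 3 := Nat.le_self_pow (by omega) _
  nlinarith

theorem poly_bound (p : Polynomial ℝ) : ∃ (A : ℝ) (k : ℕ), 0 ≤ A ∧ ∀ x : ℝ, 1 ≤ x →
    p.eval x ≤ A * x ^ k := by
  refine ⟨∑ i ∈ range (p.natDegree + 1), |p.coeff i|, p.natDegree,
    sum_nonneg fun i _ => abs_nonneg _, fun x hx => ?_⟩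
  rw [Polynomial.eval_eq_sum_range, sum_mul]
  refine sum_le_sum fun i hi => ?_
  rw [mem_range] at hi
  exact mul_le_mul (le_abs_self _) (pow_le_pow_right₀ hx (by omega)) (by positivity)
    (abs_nonneg _)

theorem fixed_large {σ : Vx n → Vx n → ℝ} (hn : 1 ≤ n)
    (hcne : (Gm n).IsCNE (epsn n) (xlow n) (yup n) σ) {L : ℕ} (hL : (Gm n).FixedPoint σ L) :
    2 ^ n ≤ L := by
  obtain ⟨v, i, u, hk, h1, h2⟩ := forced hn hcne
  obtain ⟨a, ha⟩ := hL v i hk u
  rw [ha] at h1 h2
  have ha0 : 1 ≤ a := by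
    rcases Nat.eq_zero_or_pos a with h | h
    · subst h; simp at h1
    · exact h
  have h3 : (1 : ℝ) / 2 ^ L ≤ (1 / 2) ^ 2 ^ n := by
    refine le_trans ?_ h2
    apply div_le_div_of_nonneg_right _ (by positivity)
    exact_mod_cast ha0
  rw [div_pow, one_pow] at h3
  have h4 : (2 : ℝ) ^ 2 ^ n ≤ 2 ^ L := by
    have := (one_div_le_one_div (by positivity) (by positivity)).mp h3
    exact this
  exact (pow_le_pow_iff_right₀ (by norm_num)).mp h4

theorem not_Q1 : ¬ Q1 := by
  rintro ⟨p, hp⟩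
  obtain ⟨A, k, hA, hAk⟩ := poly_bound p
  have key : ∀ n : ℕ, 1 ≤ n → (2 : ℝ) ^ n ≤ A * (2000 * ((n : ℝ) + 1) ^ 3) ^ k := by
    intro n hn
    obtain ⟨σ, hσ, L, hL1, hL2⟩ := hp (Fin (n + 2)) (Vx n) (Gm n) (xlow n) (yup n) (epsn n)
      epsn_pos ⟨sg n, cne_sg hn⟩
    have h1 : ((2 ^ n : ℕ) : ℝ) ≤ L := by exact_mod_cast fixed_large hn hσ hL2
    push_cast at h1
    have h2 : (1 : ℝ) ≤ ((Gm n).inputSize (xlow n) (yup n) (epsn n) : ℝ) := by
      have := ratSize_pos (epsn n)
      have h3 : 1 ≤ (Gm n).inputSize (xlow n) (yup n) (epsn n) := by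
        unfold Game.inputSize
        omega
      exact_mod_cast h3
    have h3 : ((Gm n).inputSize (xlow n) (yup n) (epsn n) : ℝ) ≤ 2000 * ((n : ℝ) + 1) ^ 3 := by
      exact_mod_cast size_bound
    refine h1.trans (hL1.trans ((hAk _ h2).trans ?_))
    exact mul_le_mul_of_nonneg_left (pow_le_pow_left₀ (by linarith) h3 k) hA
  have h1 := (tendsto_pow_const_div_const_pow_of_one_lt (3 * k) (show (1 : ℝ) < 2 by norm_num)).comp
    (tendsto_add_atTop_nat 1)
  have h2 := h1.const_mul (A * 2000 ^ k)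
  rw [mul_zero] at h2
  have h3 := h2.eventually_lt_const (show (0 : ℝ) < 1 / 2 by norm_num)
  obtain ⟨n, hn1, hn2⟩ := (h3.and (eventually_ge_atTop 1)).exists
  have h4 := key n hn2
  simp only [Function.comp_apply] at hn1
  rw [mul_div_assoc', div_lt_iff₀ (by positivity)] at hn1
  push_cast at hn1
  rw [mul_pow, ← pow_mul] at h4
  rw [pow_succ] at hn1
  linarith

/-- The main theorem. -/
theorem main_games (n : ℕ) (hn : 1 ≤ n) :
    ∃ (Pl V : Type) (_ : Fintype Pl) (_ : Fintype V) (G : Game Pl V) (x y : Pl → ℚ) (ε : ℚ),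
      0 < ε ∧ G.inputSize x y ε ≤ 2000 * (n + 1) ^ 3 ∧ (∃ σ, G.IsCNE ε x y σ) ∧
        ∀ σ, G.IsCNE ε x y σ →
          ∃ v i u, G.kind v = Kind.player i ∧ 0 < σ v u ∧ σ v u ≤ (1 / 2) ^ 2 ^ n :=
  ⟨Fin (n + 2), Vx n, inferInstance, inferInstance, Gm n, xlow n, yup n, epsn n, epsn_pos,
    size_bound, ⟨sg n, cne_sg hn⟩, fun _ h => forced hn h⟩

end Pool.Agent.R645.NE
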